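import Mathlib

set_option autoImplicit false

/-!
# An inequality of Jensen type in a half-plane, in terms of mean squares
-/

namespace Pool.Agent.Y693.R4

open Complex Filter Topology MeasureTheory Set Metric
open scoped ComplexConjugate

/-- mean value of the square on the circle -/
theorem circle_sq {h : ℂ → ℂ} (hd : DiffContOnCl ℂ h (ball 0 1)) :
    ‖h 0‖ ^ 2 ≤ (1 / (2 * Real.pi)) * ∫ φ in (-Real.pi)..Real.pi, ‖h (cexp (φ * I))‖ ^ 2 := by
  have h2 : DiffContOnCl ℂ (fun z => h z * h z) (ball 0 1) := by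
    refine ⟨hd.1.mul hd.1, hd.2.mul hd.2⟩
  have h3 := h2.circleIntegral_sub_inv_smul (mem_ball_self one_pos)
  rw [circleIntegral] at h3
  have h4 : ∀ θ : ℝ, deriv (circleMap 0 1) θ • (circleMap 0 1 θ - 0)⁻¹ • (h (circleMap 0 1 θ) * h (circleMap 0 1 θ)) =
      I * (h (cexp (θ * I)) * h (cexp (θ * I))) := by
    intro θ
    rw [deriv_circleMap, sub_zero]
    have h5 : circleMap 0 1 θ = cexp (θ * I) := by simp [circleMap]
    rw [h5, smul_eq_mul, smul_eq_mul]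
    have h6 : cexp (θ * I) ≠ 0 := Complex.exp_ne_zero _
    field_simp
  simp_rw [h4] at h3
  rw [intervalIntegral.integral_const_mul] at h3
  have h5 := congrArg norm h3
  rw [norm_mul, Complex.norm_I, one_mul, norm_smul, norm_mul (h 0)] at h5
  have h6 : ‖(2 * Real.pi * I : ℂ)‖ = 2 * Real.pi := by
    rw [norm_mul, norm_mul, Complex.norm_I, Complex.norm_real, Real.norm_of_nonneg Real.pi_pos.le]
    simp
  rw [h6] at h5
  have h7 : ‖∫ φ in (0 : ℝ)..(2 * Real.pi), h (cexp (φ * I)) * h (cexp (φ * I))‖ ≤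
      ∫ φ in (0 : ℝ)..(2 * Real.pi), ‖h (cexp (φ * I))‖ ^ 2 := by
    refine (intervalIntegral.norm_integral_le_integral_norm (by positivity)).trans (le_of_eq ?_)
    refine intervalIntegral.integral_congr fun φ _ => ?_
    show ‖h (cexp (φ * I)) * h (cexp (φ * I))‖ = _
    rw [norm_mul, sq]
  have h8 : ∫ φ in (0 : ℝ)..(2 * Real.pi), ‖h (cexp (φ * I))‖ ^ 2 =
      ∫ φ in (-Real.pi)..Real.pi, ‖h (cexp (φ * I))‖ ^ 2 := by
    have hper : Function.Periodic (fun φ : ℝ => ‖h (cexp (φ * I))‖ ^ 2) (2 * Real.pi) := by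
      intro φ
      show ‖h (cexp (((φ + 2 * Real.pi : ℝ) : ℂ) * I))‖ ^ 2 = _
      have : cexp (((φ + 2 * Real.pi : ℝ) : ℂ) * I) = cexp (φ * I) := by
        push_cast
        rw [add_mul, Complex.exp_add, Complex.exp_two_pi_mul_I, mul_one]
      rw [this]
    have := hper.intervalIntegral_add_eq 0 (-Real.pi)
    rw [zero_add] at this
    rw [this]
    congr 1
    ring
  rw [h8] at h7
  have h9 := Real.pi_pos
  rw [one_div_mul_eq_div, le_div_iff₀ (by positivity)]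
  rw [h5] at h7
  nlinarith

/-- change of variables -/
theorem circle_line (g : ℂ → ℝ) :
    ∫ φ in (-Real.pi)..Real.pi, g (cexp (φ * I)) =
      ∫ t : ℝ, g ((1 + t * I) / (1 - t * I)) * (2 / (1 + t ^ 2)) := by
  have hpi := Real.pi_pos
  rw [intervalIntegral.integral_of_le (by linarith), integral_Ioc_eq_integral_Ioo]
  have himg : (fun t : ℝ => 2 * Real.arctan t) '' Set.univ = Set.Ioo (-Real.pi) Real.pi := by
    ext x
    simp only [Set.mem_image, Set.mem_univ, true_and, Set.mem_Ioo]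
    constructor
    · rintro ⟨t, rfl⟩
      have h1 := Real.arctan_lt_pi_div_two t
      have h2 := Real.neg_pi_div_two_lt_arctan t
      constructor <;> linarith
    · rintro ⟨h1, h2⟩
      refine ⟨Real.tan (x / 2), ?_⟩
      rw [Real.arctan_tan (by linarith) (by linarith)]
      ring
  rw [← himg, integral_image_eq_integral_abs_deriv_smul MeasurableSet.univ
    (f' := fun t : ℝ => 2 * (1 / (1 + t ^ 2)))
    (fun t _ => ((Real.hasDerivAt_arctan t).const_mul 2).hasDerivWithinAt)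
    (fun a _ b _ hab => Real.arctan_injective (by simpa using hab))]
  rw [Measure.restrict_univ]
  refine integral_congr_ae (Filter.Eventually.of_forall fun t => ?_)
  show |2 * (1 / (1 + t ^ 2))| • g (cexp (((2 * Real.arctan t : ℝ) : ℂ) * I)) = _
  have h1 : (0 : ℝ) < 1 + t ^ 2 := by positivity
  rw [abs_of_pos (by positivity), smul_eq_mul, mul_comm]
  have h2 : cexp (((2 * Real.arctan t : ℝ) : ℂ) * I) = (1 + t * I) / (1 - t * I) := by
    have h3 : cexp (((2 * Real.arctan t : ℝ) : ℂ) * I) =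
        cexp ((Real.arctan t : ℂ) * I) * cexp ((Real.arctan t : ℂ) * I) := by
      rw [← Complex.exp_add]
      congr 1
      push_cast
      ring
    have h4 : cexp ((Real.arctan t : ℂ) * I) = (1 + t * I) / (Real.sqrt (1 + t ^ 2) : ℝ) := by
      rw [Complex.exp_mul_I, ← Complex.ofReal_cos, ← Complex.ofReal_sin, Real.cos_arctan, Real.sin_arctan]
      push_cast
      ring
    have h5 : (1 - t * I : ℂ) ≠ 0 := by
      intro h
      have := congrArg Complex.re h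
      simp at this
    have h6 : ((Real.sqrt (1 + t ^ 2) : ℝ) : ℂ) * ((Real.sqrt (1 + t ^ 2) : ℝ) : ℂ) = (1 + t * I) * (1 - t * I) := by
      rw [← Complex.ofReal_mul, Real.mul_self_sqrt h1.le]
      push_cast
      ring_nf
      rw [Complex.I_sq]
      ring
    have h7 : ((Real.sqrt (1 + t ^ 2) : ℝ) : ℂ) ≠ 0 := by
      exact_mod_cast (Real.sqrt_pos.2 h1).ne'
    rw [h3, h4, div_mul_div_comm, h6]
    have h8 : (1 + t * I : ℂ) ≠ 0 := by
      intro h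
      have := congrArg Complex.re h
      simp at this
    field_simp
  rw [h2]
  congr 1
  ring

/-- Hardy space inequality in the right half-plane -/
theorem hardy {H : ℂ → ℂ} {A C : ℝ} (hA : 0 < A) (hH : ∀ z : ℂ, 0 ≤ z.re → DifferentiableAt ℂ H z)
    (hb : ∀ z : ℂ, 0 ≤ z.re → ‖H z‖ ≤ C / (1 + ‖z‖)) :
    ‖H A‖ ^ 2 ≤ (1 / Real.pi) * ∫ t : ℝ, ‖H (t * I)‖ ^ 2 * (A / (A ^ 2 + t ^ 2)) := by
  obtain ⟨h, hh⟩ : ∃ h : ℂ → ℂ, h = fun ζ => if ζ = -1 then 0 else H (A * ((1 - ζ) / (1 + ζ))) := ⟨_, rfl⟩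
  have hAc : (A : ℂ) ≠ 0 := by exact_mod_cast hA.ne'
  have hC : 0 ≤ C := by
    have h1 := hb 0 (by simp)
    rw [norm_zero, add_zero, div_one] at h1
    exact (norm_nonneg _).trans h1
  -- the real part
  have hre : ∀ ζ : ℂ, ζ ≠ -1 → ‖ζ‖ ≤ 1 → 0 ≤ ((A : ℂ) * ((1 - ζ) / (1 + ζ))).re := by
    intro ζ h1 h2
    rw [Complex.re_ofReal_mul]
    refine mul_nonneg hA.le ?_
    rw [Complex.div_re]
    have h3 : 0 ≤ Complex.normSq (1 + ζ) := Complex.normSq_nonneg _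
    rw [← add_div]
    refine div_nonneg ?_ h3
    have h4 : ‖ζ‖ ^ 2 ≤ 1 := by nlinarith [norm_nonneg ζ]
    rw [← Complex.normSq_eq_norm_sq, Complex.normSq_apply] at h4
    simp
    nlinarith
  have hdA : ∀ ζ : ℂ, ζ ≠ -1 → ‖ζ‖ ≤ 1 → DifferentiableAt ℂ h ζ := by
    intro ζ h1 h2
    have h3 : (1 + ζ) ≠ 0 := by
      intro h0
      apply h1
      linear_combination h0
    have h4 : DifferentiableAt ℂ (fun ζ => H (A * ((1 - ζ) / (1 + ζ)))) ζ := by
      refine DifferentiableAt.comp ζ (f := fun ζ : ℂ => (A : ℂ) * ((1 - ζ) / (1 + ζ))) (hH _ (hre ζ h1 h2)) ?_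
      refine DifferentiableAt.const_mul ?_ _
      exact DifferentiableAt.div (by fun_prop) (by fun_prop) h3
    refine h4.congr_of_eventuallyEq ?_
    filter_upwards [isOpen_ne.mem_nhds h1] with x hx
    rw [hh]
    exact if_neg hx
  have hd : DiffContOnCl ℂ h (ball 0 1) := by
    refine ⟨fun ζ hζ => ?_, ?_⟩
    · have h1 : ‖ζ‖ < 1 := by simpa using hζ
      refine (hdA ζ ?_ h1.le).differentiableWithinAt
      rintro rfl
      simp at h1
    · rw [closure_ball _ one_ne_zero]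
      intro ζ hζ
      have h1 : ‖ζ‖ ≤ 1 := by simpa using hζ
      by_cases h2 : ζ = -1
      · subst h2
        -- bound near `-1`
        have hbd : ∀ x ∈ closedBall (0 : ℂ) 1, ‖h x‖ ≤ C * (1 / A + 1) * (‖1 + x‖) := by
          intro x hx
          have h3 : ‖x‖ ≤ 1 := by simpa using hx
          by_cases h4 : x = -1
          · rw [h4, hh]
            simp
          · rw [hh]
            simp only [if_neg h4]
            have h5 : (1 + x) ≠ 0 := by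
              intro h0
              apply h4
              linear_combination h0
            have h6 : 0 < ‖1 + x‖ := norm_pos_iff.2 h5
            refine (hb _ (hre x h4 h3)).trans ?_
            rw [norm_mul, norm_div, Complex.norm_real, Real.norm_of_nonneg hA.le]
            rw [div_le_iff₀ (by positivity)]
            have h7 : 2 ≤ ‖1 + x‖ + ‖1 - x‖ := by
              have : ‖(1 + x) + (1 - x)‖ ≤ ‖1 + x‖ + ‖1 - x‖ := norm_add_le _ _
              have e : (1 + x) + (1 - x) = 2 := by ring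
              rw [e] at this
              simpa using this
            have h8 : ‖1 - x‖ / ‖1 + x‖ * ‖1 + x‖ = ‖1 - x‖ := div_mul_cancel₀ _ h6.ne'
            have h9 : C * (1 / A + 1) * ‖1 + x‖ * (1 + A * (‖1 - x‖ / ‖1 + x‖)) =
                C * ((1 / A + 1) * ‖1 + x‖ + (1 + A) * ‖1 - x‖) := by
              have : C * (1 / A + 1) * ‖1 + x‖ * (1 + A * (‖1 - x‖ / ‖1 + x‖)) =
                C * ((1 / A + 1) * ‖1 + x‖ + (1 / A * A + A) * (‖1 - x‖ / ‖1 + x‖ * ‖1 + x‖)) := by ring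
              rw [this, h8, one_div_mul_cancel hA.ne']
            rw [h9]
            have h10 : 0 < 1 / A := by positivity
            have h11 := norm_nonneg (1 - x)
            have h12 : 1 ≤ (1 / A + 1) * ‖1 + x‖ + (1 + A) * ‖1 - x‖ := by nlinarith
            nlinarith
        have h3 : h (-1) = 0 := by rw [hh]; simp
        unfold ContinuousWithinAt
        rw [h3]
        refine squeeze_zero_norm' (a := fun x => C * (1 / A + 1) * ‖1 + x‖) ?_ ?_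
        · filter_upwards [self_mem_nhdsWithin] with x hx
          exact hbd x hx
        · have h4 : Continuous (fun x : ℂ => C * (1 / A + 1) * ‖1 + x‖) := by fun_prop
          have h5 := (h4.tendsto (-1)).mono_left (nhdsWithin_le_nhds (s := closedBall (0 : ℂ) 1))
          simpa using h5
      · exact (hdA ζ h2 h1).continuousAt.continuousWithinAt
  have h1 := circle_sq hd
  have h0 : h 0 = H A := by
    rw [hh]
    simp
  rw [h0, circle_line (fun ζ => ‖h ζ‖ ^ 2)] at h1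
  refine h1.trans (le_of_eq ?_)
  -- rescale
  have h2 : ∀ t : ℝ, ‖h ((1 + t * I) / (1 - t * I))‖ ^ 2 * (2 / (1 + t ^ 2)) =
      ‖H (((-(A * t) : ℝ) : ℂ) * I)‖ ^ 2 * (2 / (1 + t ^ 2)) := by
    intro t
    have h5 : (1 - t * I : ℂ) ≠ 0 := by
      intro h
      have := congrArg Complex.re h
      simp at this
    have h6 : (1 + t * I) / (1 - t * I) ≠ (-1 : ℂ) := by
      intro h
      rw [div_eq_iff h5] at h
      have := congrArg Complex.re h
      simp at this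
      norm_num at this
    rw [hh]
    simp only [if_neg h6]
    congr 4
    have h7 : (1 + (1 + t * I) / (1 - t * I) : ℂ) ≠ 0 := by
      intro h0
      apply h6
      linear_combination h0
    have h8 : (1 - (1 + t * I) / (1 - t * I) : ℂ) / (1 + (1 + t * I) / (1 - t * I)) = -(t * I) := by
      rw [div_eq_iff h7]
      field_simp
      ring
    rw [h8]
    push_cast
    ring
  simp_rw [h2]
  have h3 := Measure.integral_comp_mul_left (fun t : ℝ => ‖H ((t : ℂ) * I)‖ ^ 2 * (2 / (1 + (t / (-A)) ^ 2))) (-A)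
  have h4 : (fun t : ℝ => ‖H (((-(A * t) : ℝ) : ℂ) * I)‖ ^ 2 * (2 / (1 + t ^ 2))) =
      fun t : ℝ => (fun t : ℝ => ‖H ((t : ℂ) * I)‖ ^ 2 * (2 / (1 + (t / (-A)) ^ 2))) (-A * t) := by
    funext t
    show _ = ‖H (((-A * t : ℝ) : ℂ) * I)‖ ^ 2 * (2 / (1 + (-A * t / (-A)) ^ 2))
    have e : -A * t / (-A) = t := by field_simp
    rw [e, neg_mul]
  rw [h4, h3, smul_eq_mul, abs_inv, abs_neg, abs_of_pos hA, ← integral_const_mul, ← integral_const_mul,
    ← integral_const_mul]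
  refine integral_congr_ae (Filter.Eventually.of_forall fun t => ?_)
  show 1 / (2 * Real.pi) * (A⁻¹ * (‖H ((t : ℂ) * I)‖ ^ 2 * (2 / (1 + (t / (-A)) ^ 2)))) =
    1 / Real.pi * (‖H (t * I)‖ ^ 2 * (A / (A ^ 2 + t ^ 2)))
  have hpi := Real.pi_pos
  have h5 : 0 < A ^ 2 + t ^ 2 := by positivity
  have h6 : 1 + (t / (-A)) ^ 2 = (A ^ 2 + t ^ 2) / A ^ 2 := by
    field_simp
  rw [h6]
  field_simp

/-- dividing by a zero -/
theorem factor_one {G : ℂ → ℂ} (hG : Differentiable ℂ G) (ρ : ℂ) (n : ℕ) (hn : (n : ℕ∞) ≤ analyticOrderAt G ρ) :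
    ∃ Q : ℂ → ℂ, Differentiable ℂ Q ∧ ∀ z, G z = (z - ρ) ^ n * Q z := by
  obtain ⟨g, hg, hev⟩ := (natCast_le_analyticOrderAt (hG.analyticAt ρ)).1 hn
  refine ⟨fun z => if z = ρ then g ρ else G z / (z - ρ) ^ n, fun z => ?_, fun z => ?_⟩
  · by_cases hz : z = ρ
    · subst hz
      refine hg.differentiableAt.congr_of_eventuallyEq ?_
      filter_upwards [hev] with x hx
      by_cases h : x = z
      · rw [if_pos h, h]
      · rw [if_neg h, hx, smul_eq_mul, mul_div_cancel_left₀]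
        exact pow_ne_zero _ (sub_ne_zero.2 h)
    · have h1 : DifferentiableAt ℂ (fun z => G z / (z - ρ) ^ n) z :=
        (hG z).div (by fun_prop) (pow_ne_zero _ (sub_ne_zero.2 hz))
      refine h1.congr_of_eventuallyEq ?_
      filter_upwards [isOpen_ne.mem_nhds hz] with x hx
      exact if_neg hx
  · by_cases hz : z = ρ
    · subst hz
      have h1 := hev.self_of_nhds
      have h2 : (if z = z then g z else G z / (z - z) ^ n) = g z := if_pos rfl
      show G z = (z - z) ^ n * (if z = z then g z else G z / (z - z) ^ n)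
      rw [h2, h1, smul_eq_mul]
    · have h2 : (if z = ρ then g ρ else G z / (z - ρ) ^ n) = G z / (z - ρ) ^ n := if_neg hz
      show G z = (z - ρ) ^ n * (if z = ρ then g ρ else G z / (z - ρ) ^ n)
      rw [h2, mul_div_cancel₀]
      exact pow_ne_zero _ (sub_ne_zero.2 hz)

theorem factor (S : Finset ℂ) (ν : ℂ → ℕ) {G : ℂ → ℂ} (hG : Differentiable ℂ G)
    (hν : ∀ ρ ∈ S, (ν ρ : ℕ∞) ≤ analyticOrderAt G ρ) :
    ∃ Q : ℂ → ℂ, Differentiable ℂ Q ∧ ∀ z, G z = (∏ ρ ∈ S, (z - ρ) ^ ν ρ) * Q z := by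
  classical
  induction S using Finset.induction_on with
  | empty => exact ⟨G, hG, fun z => by simp⟩
  | insert a S ha ih =>
    obtain ⟨Q1, hQ1, h1⟩ := ih fun ρ hρ => hν ρ (Finset.mem_insert_of_mem hρ)
    have hP : Differentiable ℂ (fun z : ℂ => ∏ ρ ∈ S, (z - ρ) ^ ν ρ) := by
      apply Differentiable.fun_finsetProd
      intro ρ _
      fun_prop
    have hPa : (∏ ρ ∈ S, (a - ρ) ^ ν ρ) ≠ 0 := by
      refine Finset.prod_ne_zero_iff.2 fun ρ hρ => pow_ne_zero _ (sub_ne_zero.2 ?_)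
      rintro rfl
      exact ha hρ
    have h2 : analyticOrderAt G a = analyticOrderAt Q1 a := by
      have h3 : G = (fun z : ℂ => ∏ ρ ∈ S, (z - ρ) ^ ν ρ) * Q1 := funext h1
      rw [h3, analyticOrderAt_mul (hP.analyticAt a) (hQ1.analyticAt a)]
      have h4 : analyticOrderAt (fun z : ℂ => ∏ ρ ∈ S, (z - ρ) ^ ν ρ) a = 0 :=
        (hP.analyticAt a).analyticOrderAt_eq_zero.2 hPa
      rw [h4, zero_add]
    obtain ⟨Q, hQ, h5⟩ := factor_one hQ1 a (ν a) (h2 ▸ hν a (Finset.mem_insert_self a S))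
    refine ⟨Q, hQ, fun z => ?_⟩
    rw [h1 z, h5 z, Finset.prod_insert ha]
    ring

lemma add_norm {A : ℝ} (hA : 0 < A) {z : ℂ} (hz : 0 ≤ z.re) :
    (A : ℂ) + z ≠ 0 ∧ ‖(A : ℂ) / (A + z)‖ ≤ 2 * (A + 1) / (1 + ‖z‖) := by
  have h1 : A ^ 2 + ‖z‖ ^ 2 ≤ ‖(A : ℂ) + z‖ ^ 2 := by
    rw [← Complex.normSq_eq_norm_sq, ← Complex.normSq_eq_norm_sq, Complex.normSq_apply, Complex.normSq_apply]
    simp
    nlinarith [mul_nonneg hA.le hz]
  have h2 := norm_nonneg z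
  have h3 := norm_nonneg ((A : ℂ) + z)
  have h4 : (A + ‖z‖) / 2 ≤ ‖(A : ℂ) + z‖ := by
    nlinarith [sq_nonneg (A - ‖z‖)]
  have h5 : 0 < ‖(A : ℂ) + z‖ := by nlinarith
  refine ⟨norm_pos_iff.1 h5, ?_⟩
  rw [norm_div, Complex.norm_real, Real.norm_of_nonneg hA.le, div_le_div_iff₀ h5 (by positivity)]
  nlinarith [mul_nonneg hA.le h2]

/-- Jensen's inequality with mean squares in the right half-plane -/
theorem blaschke {G : ℂ → ℂ} (hG : Differentiable ℂ G) {A C : ℝ} {p m : ℕ} (hA : 0 < A)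
    (hgr : ∀ z : ℂ, 0 ≤ z.re → ‖G z‖ ≤ C * (1 + ‖z‖) ^ p) (hpm : p + 1 ≤ m) (S : Finset ℂ)
    (hGA : G A ≠ 0) :
    ‖G A‖ ^ 2 * (1 / 4) ^ m * ∏ ρ ∈ S, (‖(A : ℂ) + conj ρ‖ / ‖(A : ℂ) - ρ‖) ^ (2 * analyticOrderNatAt G ρ) ≤
      (1 / Real.pi) * ∫ t : ℝ, ‖G (t * I)‖ ^ 2 * ((A ^ 2 / (A ^ 2 + t ^ 2)) ^ m * (A / (A ^ 2 + t ^ 2))) := by
  obtain ⟨ν, hν⟩ : ∃ ν : ℂ → ℕ, ν = fun ρ => analyticOrderNatAt G ρ := ⟨_, rfl⟩
  obtain ⟨Q, hQ, hGQ⟩ := factor S ν hG fun ρ _ => by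
    rw [hν]
    show ((analyticOrderNatAt G ρ : ℕ) : ℕ∞) ≤ _
    by_cases h : analyticOrderAt G ρ = ⊤
    · rw [h]; exact le_top
    · rw [Nat.cast_analyticOrderNatAt h]
  obtain ⟨R, hR⟩ : ∃ R : ℂ → ℂ, R = fun z => ∏ ρ ∈ S, (z + conj ρ) ^ ν ρ := ⟨_, rfl⟩
  have hRd : Differentiable ℂ R := by
    rw [hR]
    apply Differentiable.fun_finsetProd
    intro ρ _
    fun_prop
  obtain ⟨H, hH⟩ : ∃ H : ℂ → ℂ, H = fun z => Q z * R z * ((A : ℂ) / (A + z)) ^ m := ⟨_, rfl⟩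
  have hC0 : 0 ≤ C := by
    have h1 := hgr 0 (by simp)
    rw [norm_zero, add_zero, one_pow, mul_one] at h1
    exact (norm_nonneg _).trans h1
  have hHd : ∀ z : ℂ, 0 ≤ z.re → DifferentiableAt ℂ H z := by
    intro z hz
    have h1 := (add_norm hA hz).1
    rw [hH]
    refine ((hQ z).mul (hRd z)).mul ?_
    exact DifferentiableAt.pow (DifferentiableAt.div (by fun_prop) (by fun_prop) h1) m
  -- the bound
  obtain ⟨n, hn⟩ : ∃ n : ℕ, n = ∑ ρ ∈ S, ν ρ := ⟨_, rfl⟩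
  obtain ⟨r, hr⟩ : ∃ r : ℝ, r = 2 * (∑ ρ ∈ S, ‖ρ‖) + 1 := ⟨_, rfl⟩
  have hr0 : 0 < r := by
    rw [hr]
    have : 0 ≤ ∑ ρ ∈ S, ‖ρ‖ := Finset.sum_nonneg fun _ _ => norm_nonneg _
    linarith
  obtain ⟨B1, hB1⟩ := (isCompact_closedBall (0 : ℂ) r).exists_bound_of_continuousOn
    (f := fun z => Q z * R z) (hQ.continuous.mul hRd.continuous).continuousOn
  have hB10 : 0 ≤ B1 := (norm_nonneg _).trans (hB1 0 (by simp [hr0.le]))
  have hfar : ∀ z : ℂ, 0 ≤ z.re → r ≤ ‖z‖ → ‖Q z * R z‖ ≤ 3 ^ n * (C * (1 + ‖z‖) ^ p) := by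
    intro z hz hrz
    have h1 : ‖R z‖ ≤ 3 ^ n * ∏ ρ ∈ S, ‖z - ρ‖ ^ ν ρ := by
      rw [hR, hn, ← Finset.prod_pow_eq_pow_sum, ← Finset.prod_mul_distrib, norm_prod]
      refine Finset.prod_le_prod (fun _ _ => norm_nonneg _) fun ρ hρ => ?_
      rw [norm_pow, ← mul_pow]
      refine pow_le_pow_left₀ (norm_nonneg _) ?_ _
      have h2 : 2 * ‖ρ‖ ≤ ‖z‖ := by
        have : ‖ρ‖ ≤ ∑ ρ ∈ S, ‖ρ‖ := Finset.single_le_sum (f := fun ρ : ℂ => ‖ρ‖) (fun _ _ => norm_nonneg _) hρ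
        linarith
      have h3 : ‖z + conj ρ‖ ≤ ‖z‖ + ‖ρ‖ := by
        refine (norm_add_le _ _).trans ?_
        rw [Complex.norm_conj]
      have h4 : ‖z‖ - ‖ρ‖ ≤ ‖z - ρ‖ := norm_sub_norm_le _ _
      linarith
    rw [norm_mul]
    have h5 := hgr z hz
    rw [hGQ z, norm_mul, norm_prod] at h5
    simp only [norm_pow] at h5
    calc ‖Q z‖ * ‖R z‖ ≤ ‖Q z‖ * (3 ^ n * ∏ ρ ∈ S, ‖z - ρ‖ ^ ν ρ) := by gcongr
      _ = 3 ^ n * ((∏ ρ ∈ S, ‖z - ρ‖ ^ ν ρ) * ‖Q z‖) := by ring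
      _ ≤ _ := by gcongr
  have hall : ∀ z : ℂ, 0 ≤ z.re → ‖Q z * R z‖ ≤ (B1 + 3 ^ n * C) * (1 + ‖z‖) ^ p := by
    intro z hz
    have h1 : 1 ≤ (1 + ‖z‖) ^ p := one_le_pow₀ (by linarith [norm_nonneg z])
    rcases le_or_gt r ‖z‖ with h | h
    · refine (hfar z hz h).trans ?_
      nlinarith
    · refine (hB1 z (by simpa using h.le)).trans ?_
      have h3 : (0 : ℝ) ≤ 3 ^ n * C := by positivity
      nlinarith
  have hHb : ∀ z : ℂ, 0 ≤ z.re → ‖H z‖ ≤ ((B1 + 3 ^ n * C) * (2 * (A + 1)) ^ m) / (1 + ‖z‖) := by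
    intro z hz
    obtain ⟨-, h2⟩ := add_norm hA hz
    rw [hH]
    show ‖Q z * R z * ((A : ℂ) / (A + z)) ^ m‖ ≤ _
    rw [norm_mul, norm_pow]
    have h0 : 0 ≤ B1 + 3 ^ n * C := by positivity
    have hz1 : 1 ≤ 1 + ‖z‖ := by linarith [norm_nonneg z]
    calc ‖Q z * R z‖ * ‖(A : ℂ) / (A + z)‖ ^ m ≤
        ((B1 + 3 ^ n * C) * (1 + ‖z‖) ^ p) * (2 * (A + 1) / (1 + ‖z‖)) ^ m := by
          gcongr
          exact hall z hz
      _ = (B1 + 3 ^ n * C) * (2 * (A + 1)) ^ m * ((1 + ‖z‖) ^ p / (1 + ‖z‖) ^ m) := by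
          rw [div_pow]; ring
      _ ≤ (B1 + 3 ^ n * C) * (2 * (A + 1)) ^ m * (1 / (1 + ‖z‖)) := by
          have h3 : (1 + ‖z‖) ^ p / (1 + ‖z‖) ^ m ≤ 1 / (1 + ‖z‖) := by
            rw [div_le_div_iff₀ (by positivity) (by positivity), one_mul, ← pow_succ]
            exact pow_le_pow_right₀ hz1 hpm
          exact mul_le_mul_of_nonneg_left h3 (by positivity)
      _ = _ := by ring
  have hmain := hardy hA hHd hHb
  -- left side
  have hAS : ∀ ρ ∈ S, ν ρ ≠ 0 → (A : ℂ) - ρ ≠ 0 := by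
    intro ρ hρ h0 h1
    apply hGA
    rw [hGQ]
    have : (∏ ρ ∈ S, ((A : ℂ) - ρ) ^ ν ρ) = 0 := Finset.prod_eq_zero hρ (by rw [h1]; exact zero_pow h0)
    rw [this, zero_mul]
  have hL : ‖H A‖ ^ 2 = ‖G A‖ ^ 2 * (1 / 4) ^ m *
      ∏ ρ ∈ S, (‖(A : ℂ) + conj ρ‖ / ‖(A : ℂ) - ρ‖) ^ (2 * analyticOrderNatAt G ρ) := by
    have h1 : ∀ ρ ∈ S, ‖(A : ℂ) - ρ‖ ^ ν ρ * (‖(A : ℂ) + conj ρ‖ / ‖(A : ℂ) - ρ‖) ^ ν ρ = ‖(A : ℂ) + conj ρ‖ ^ ν ρ := by
      intro ρ hρ
      by_cases h0 : ν ρ = 0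
      · rw [h0]; simp
      · have := norm_ne_zero_iff.2 (hAS ρ hρ h0)
        rw [← mul_pow]
        congr 1
        field_simp
    have h2 : ‖G A‖ * ∏ ρ ∈ S, (‖(A : ℂ) + conj ρ‖ / ‖(A : ℂ) - ρ‖) ^ ν ρ = ‖Q A * R A‖ := by
      rw [hGQ, norm_mul, norm_mul, norm_prod, hR]
      show _ = ‖Q A‖ * ‖∏ ρ ∈ S, ((A : ℂ) + conj ρ) ^ ν ρ‖
      rw [norm_prod]
      simp only [norm_pow]
      rw [← Finset.prod_congr rfl h1, Finset.prod_mul_distrib]
      ring
    have h3 : ‖((A : ℂ) / (A + A))‖ = 1 / 2 := by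
      have : (A : ℂ) / (A + A) = ((1 / 2 : ℝ) : ℂ) := by
        have hAc : (A : ℂ) ≠ 0 := by exact_mod_cast hA.ne'
        push_cast
        field_simp
        norm_num
      rw [this, Complex.norm_real]
      norm_num
    have h4 : ‖H A‖ = ‖G A‖ * (∏ ρ ∈ S, (‖(A : ℂ) + conj ρ‖ / ‖(A : ℂ) - ρ‖) ^ ν ρ) * (1 / 2) ^ m := by
      rw [h2, hH]
      show ‖Q A * R A * ((A : ℂ) / (A + A)) ^ m‖ = _
      rw [norm_mul, norm_pow, h3]
    rw [h4, mul_pow, mul_pow, ← Finset.prod_pow]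
    have h5 : ∀ ρ ∈ S, ((‖(A : ℂ) + conj ρ‖ / ‖(A : ℂ) - ρ‖) ^ ν ρ) ^ 2 =
        (‖(A : ℂ) + conj ρ‖ / ‖(A : ℂ) - ρ‖) ^ (2 * analyticOrderNatAt G ρ) := by
      intro ρ _
      rw [← pow_mul, mul_comm, hν]
    rw [Finset.prod_congr rfl h5, ← pow_mul, mul_comm m 2, pow_mul]
    norm_num
    ring
  rw [hL] at hmain
  refine hmain.trans (le_of_eq ?_)
  congr 1
  refine integral_congr_ae (Filter.Eventually.of_forall fun t => ?_)
  show ‖H (t * I)‖ ^ 2 * (A / (A ^ 2 + t ^ 2)) = ‖G (t * I)‖ ^ 2 * ((A ^ 2 / (A ^ 2 + t ^ 2)) ^ m * (A / (A ^ 2 + t ^ 2)))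
  have h1 : ‖R (t * I)‖ = ∏ ρ ∈ S, ‖(t * I : ℂ) - ρ‖ ^ ν ρ := by
    rw [hR]
    show ‖∏ ρ ∈ S, ((t * I : ℂ) + conj ρ) ^ ν ρ‖ = _
    rw [norm_prod]
    refine Finset.prod_congr rfl fun ρ _ => ?_
    rw [norm_pow]
    congr 1
    have h2 : (t * I : ℂ) + conj ρ = -conj ((t * I : ℂ) - ρ) := by
      rw [map_sub, map_mul, Complex.conj_ofReal, Complex.conj_I]
      ring
    rw [h2, norm_neg, Complex.norm_conj]
  have h2 : ‖Q (t * I) * R (t * I)‖ = ‖G (t * I)‖ := by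
    rw [norm_mul, h1, hGQ, norm_mul, norm_prod]
    simp only [norm_pow]
    ring
  have h3 : ‖(A : ℂ) / (A + t * I)‖ ^ 2 = A ^ 2 / (A ^ 2 + t ^ 2) := by
    rw [norm_div, div_pow, Complex.norm_real, Real.norm_of_nonneg hA.le, ← Complex.normSq_eq_norm_sq,
      Complex.normSq_apply]
    simp
    ring_nf
  rw [hH]
  show ‖Q (t * I) * R (t * I) * ((A : ℂ) / (A + t * I)) ^ m‖ ^ 2 * _ = _
  rw [norm_mul, h2, mul_pow, norm_pow, ← pow_mul, mul_comm m 2, pow_mul, h3]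
  ring

end Pool.Agent.Y693.R4
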