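import Mathlib

set_option autoImplicit false

/-!
# Sums over groups of characters by conductor
-/

namespace Pool.Agent.Y693.R4

open DirichletCharacter

variable {M : ℕ} [NeZero M]

/-- the primitive character with its modulus -/
noncomputable def pcs {M : ℕ} (χ : DirichletCharacter ℂ M) : Σ d : ℕ, DirichletCharacter ℂ d :=
  ⟨χ.conductor, χ.primitiveCharacter⟩

theorem pcs_inj : Function.Injective (pcs : DirichletCharacter ℂ M → Σ d : ℕ, DirichletCharacter ℂ d) := by
  intro χ ψ h
  have h1 : ∀ (x : Σ d : ℕ, DirichletCharacter ℂ d) (χ : DirichletCharacter ℂ M), pcs χ = x →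
      ∃ hd : x.1 ∣ M, χ = changeLevel hd x.2 := by
    rintro x χ rfl
    exact ⟨χ.conductor_dvd_level, (changeLevel_primitiveCharacter χ).symm⟩
  obtain ⟨hd, e1⟩ := h1 (pcs ψ) χ h
  obtain ⟨hd', e2⟩ := h1 (pcs ψ) ψ rfl
  exact e1.trans e2.symm

/-- the sum over a group of characters is at most the sum over all primitive characters -/
theorem sum_le (G : Subgroup (DirichletCharacter ℂ M)) [Fintype G] (a : ∀ d : ℕ, DirichletCharacter ℂ d → ℝ)
    (ha : ∀ d χ, 0 ≤ a d χ) (b : ℕ → ℝ)
    (h : ∀ (d : ℕ) [NeZero d], d ∣ M → ∀ S : Finset (DirichletCharacter ℂ d), (∀ χ ∈ S, χ.IsPrimitive) →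
      ∑ χ ∈ S, a d χ ≤ b d) :
    ∑ χ : G, a (χ : DirichletCharacter ℂ M).conductor (χ : DirichletCharacter ℂ M).primitiveCharacter ≤
      ∑ d ∈ M.divisors, b d := by
  classical
  rw [← Finset.sum_fiberwise_of_maps_to (g := fun χ : G => (χ : DirichletCharacter ℂ M).conductor)
    (t := M.divisors) (fun χ _ => Nat.mem_divisors.2
      ⟨(χ : DirichletCharacter ℂ M).conductor_dvd_level, NeZero.ne M⟩)]
  refine Finset.sum_le_sum fun d hd => ?_
  have hdM : d ∣ M := (Nat.mem_divisors.1 hd).1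
  haveI : NeZero d := ⟨by
    rintro rfl
    exact NeZero.ne M (zero_dvd_iff.1 hdM)⟩
  obtain ⟨e, he⟩ : ∃ e : G → DirichletCharacter ℂ d, ∀ χ : G, ∀ hc : (χ : DirichletCharacter ℂ M).conductor = d,
      pcs (χ : DirichletCharacter ℂ M) = ⟨d, e χ⟩ := by
    refine ⟨fun χ => if hc : (χ : DirichletCharacter ℂ M).conductor = d then
      hc ▸ (χ : DirichletCharacter ℂ M).primitiveCharacter else 1, fun χ hc => ?_⟩
    simp only [dif_pos hc]
    unfold pcs
    subst hc
    rfl
  have h1 : ∀ χ : G, χ ∈ (Finset.univ : Finset G).filter (fun χ : G => (χ : DirichletCharacter ℂ M).conductor = d) →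
      a (χ : DirichletCharacter ℂ M).conductor (χ : DirichletCharacter ℂ M).primitiveCharacter = a d (e χ) := by
    intro χ hχ
    have h2 := he χ (Finset.mem_filter.1 hχ).2
    have h3 : a (pcs (χ : DirichletCharacter ℂ M)).1 (pcs (χ : DirichletCharacter ℂ M)).2 = a d (e χ) := by
      rw [h2]
    exact h3
  rw [Finset.sum_congr rfl h1]
  have hinj : Set.InjOn e ((Finset.univ : Finset G).filter (fun χ : G => (χ : DirichletCharacter ℂ M).conductor = d)) := by
    intro χ hχ ψ hψ hEq
    have h2 := he χ (Finset.mem_filter.1 hχ).2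
    have h3 := he ψ (Finset.mem_filter.1 hψ).2
    rw [hEq, ← h3] at h2
    exact Subtype.ext (pcs_inj h2)
  rw [← Finset.sum_image (f := fun ψ => a d ψ) hinj]
  refine h d hdM _ ?_
  intro ψ hψ
  obtain ⟨χ, hχ, rfl⟩ := Finset.mem_image.1 hψ
  have h2 := he χ (Finset.mem_filter.1 hχ).2
  have h3 : (pcs (χ : DirichletCharacter ℂ M)).2.IsPrimitive := primitiveCharacter_isPrimitive _
  rw [h2] at h3
  exact h3

end Pool.Agent.Y693.R4
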