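import Mathlib

set_option autoImplicit false

/-!
# From exponential weights to the Poisson type weight
-/

namespace Pool.Agent.Y693.R4

open MeasureTheory Set Filter Topology

/-- the weight -/
noncomputable def wt (m : ℕ) (T t : ℝ) : ℝ := (T ^ 2 / (T ^ 2 + t ^ 2)) ^ m * (T / (T ^ 2 + t ^ 2))

lemma wt_nonneg {m : ℕ} {T : ℝ} (hT : 1 ≤ T) (t : ℝ) : 0 ≤ wt m T t := by
  unfold wt
  have : 0 < T := by linarith
  positivity

lemma wt_cont {m : ℕ} {T : ℝ} (hT : 1 ≤ T) : Continuous (wt m T) := by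
  unfold wt
  have h0 : ∀ t : ℝ, T ^ 2 + t ^ 2 ≠ 0 := fun t => by
    have : 0 < T ^ 2 + t ^ 2 := by positivity
    exact this.ne'
  have h1 : Continuous fun t : ℝ => T ^ 2 + t ^ 2 := by fun_prop
  exact ((continuous_const.div h1 h0).pow m).mul (continuous_const.div h1 h0)

lemma wt_neg (m : ℕ) (T t : ℝ) : wt m T (-t) = wt m T t := by
  unfold wt
  rw [neg_sq]

lemma wt_le {m : ℕ} {T : ℝ} (hT : 1 ≤ T) (hm : 1 ≤ m) {t : ℝ} (ht : 0 ≤ t) (j : ℕ)
    (hj : 2 ^ j ≤ max 1 t) : wt m T t ≤ 64 * T ^ 3 / (T + 2 ^ j) ^ 4 := by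
  have hT0 : 0 < T := by linarith
  have h2j : (0 : ℝ) < 2 ^ j := by positivity
  have hd : 0 < T ^ 2 + t ^ 2 := by positivity
  have h1 : (T + 2 ^ j) ^ 2 ≤ 8 * (T ^ 2 + t ^ 2) := by
    have h2 : (2 ^ j : ℝ) ^ 2 ≤ T ^ 2 + t ^ 2 := by
      rcases le_total t 1 with h | h
      · rw [max_eq_left h] at hj
        nlinarith
      · rw [max_eq_right h] at hj
        nlinarith
    nlinarith [sq_nonneg (T - 2 ^ j), sq_nonneg t]
  have h2 : T ^ 2 / (T ^ 2 + t ^ 2) ≤ 8 * T ^ 2 / (T + 2 ^ j) ^ 2 := by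
    rw [div_le_div_iff₀ hd (by positivity)]
    nlinarith [sq_nonneg T]
  have h3 : T ^ 2 / (T ^ 2 + t ^ 2) ≤ 1 := by
    rw [div_le_one hd]
    nlinarith [sq_nonneg t]
  have h30 : 0 ≤ T ^ 2 / (T ^ 2 + t ^ 2) := by positivity
  have h4 : (T ^ 2 / (T ^ 2 + t ^ 2)) ^ m ≤ T ^ 2 / (T ^ 2 + t ^ 2) := by
    calc (T ^ 2 / (T ^ 2 + t ^ 2)) ^ m ≤ (T ^ 2 / (T ^ 2 + t ^ 2)) ^ 1 :=
          pow_le_pow_of_le_one h30 h3 hm
      _ = _ := pow_one _
  have h5 : T / (T ^ 2 + t ^ 2) = (1 / T) * (T ^ 2 / (T ^ 2 + t ^ 2)) := by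
    field_simp
  unfold wt
  rw [h5]
  calc (T ^ 2 / (T ^ 2 + t ^ 2)) ^ m * (1 / T * (T ^ 2 / (T ^ 2 + t ^ 2))) ≤
      (8 * T ^ 2 / (T + 2 ^ j) ^ 2) * (1 / T * (8 * T ^ 2 / (T + 2 ^ j) ^ 2)) := by
        have := h4.trans h2
        gcongr
    _ = 64 * T ^ 3 / (T + 2 ^ j) ^ 4 := by
        have : T + 2 ^ j ≠ 0 := by positivity
        field_simp
        norm_num

/-- the pointwise inequality -/
lemma wt_sum {m : ℕ} {T : ℝ} (hT : 1 ≤ T) (hm : 1 ≤ m) {t : ℝ} (ht : 0 ≤ t) (J : ℕ) (htJ : t ≤ 2 ^ J) :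
    wt m T t ≤ ∑ j ∈ Finset.range (J + 1), (Real.exp 4 * (64 * T ^ 3 / (T + 2 ^ j) ^ 4) / 2 ^ j) *
      ((1 + t) * Real.exp (-(2 * t / 2 ^ j))) := by
  have hT0 : 0 < T := by linarith
  have hpos : ∀ j : ℕ, 0 ≤ (Real.exp 4 * (64 * T ^ 3 / (T + 2 ^ j) ^ 4) / 2 ^ j) *
      ((1 + t) * Real.exp (-(2 * t / 2 ^ j))) := fun j => by positivity
  obtain ⟨j, hjJ, hj1, hj2⟩ : ∃ j : ℕ, j ≤ J ∧ (2 : ℝ) ^ j ≤ max 1 t ∧ t ≤ 2 * 2 ^ j := by
    rcases le_total t 1 with h | h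
    · exact ⟨0, Nat.zero_le _, by rw [pow_zero]; exact le_max_left _ _, by rw [pow_zero]; linarith⟩
    · refine ⟨Nat.log 2 ⌊t⌋₊, ?_, ?_, ?_⟩
      · have h1 : ⌊t⌋₊ ≤ 2 ^ J := by
          have : (⌊t⌋₊ : ℝ) ≤ 2 ^ J := (Nat.floor_le ht).trans htJ
          exact_mod_cast this
        calc Nat.log 2 ⌊t⌋₊ ≤ Nat.log 2 (2 ^ J) := Nat.log_mono_right h1
          _ = J := Nat.log_pow (by norm_num) J
      · have h1 : 2 ^ Nat.log 2 ⌊t⌋₊ ≤ ⌊t⌋₊ := Nat.pow_log_le_self 2 (by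
          have : 0 < ⌊t⌋₊ := Nat.floor_pos.2 h
          exact this.ne')
        have h2 : ((2 ^ Nat.log 2 ⌊t⌋₊ : ℕ) : ℝ) ≤ (⌊t⌋₊ : ℝ) := by exact_mod_cast h1
        push_cast at h2
        exact (h2.trans (Nat.floor_le ht)).trans (le_max_right _ _)
      · have h1 : ⌊t⌋₊ < 2 ^ (Nat.log 2 ⌊t⌋₊ + 1) := Nat.lt_pow_succ_log_self (by norm_num) _
        have h2 : ((⌊t⌋₊ + 1 : ℕ) : ℝ) ≤ ((2 ^ (Nat.log 2 ⌊t⌋₊ + 1) : ℕ) : ℝ) := by exact_mod_cast h1
        push_cast at h2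
        have h3 := Nat.lt_floor_add_one t
        rw [pow_succ] at h2
        linarith
  refine le_trans ?_ (Finset.single_le_sum (fun j _ => hpos j) (Finset.mem_range.2 (Nat.lt_succ_of_le hjJ)))
  have h1 := wt_le (m := m) hT hm ht j hj1
  have h2j : (0 : ℝ) < 2 ^ j := by positivity
  have h2 : 1 ≤ (1 + t) / 2 ^ j := by
    rw [le_div_iff₀ h2j, one_mul]
    refine hj1.trans (max_le (by linarith) (by linarith))
  have h3 : 1 ≤ Real.exp 4 * Real.exp (-(2 * t / 2 ^ j)) := by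
    rw [← Real.exp_add]
    refine Real.one_le_exp ?_
    have : 2 * t / 2 ^ j ≤ 4 := by
      rw [div_le_iff₀ h2j]
      linarith
    linarith
  have h4 : 0 ≤ 64 * T ^ 3 / (T + 2 ^ j) ^ 4 := by positivity
  calc wt m T t ≤ 64 * T ^ 3 / (T + 2 ^ j) ^ 4 := h1
    _ = 64 * T ^ 3 / (T + 2 ^ j) ^ 4 * (1 * 1) := by ring
    _ ≤ 64 * T ^ 3 / (T + 2 ^ j) ^ 4 * ((1 + t) / 2 ^ j * (Real.exp 4 * Real.exp (-(2 * t / 2 ^ j)))) := by
        gcongr
    _ = _ := by ring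

/-- the sum of the constants -/
lemma cst_sum {P Q T : ℝ} (hP : 0 ≤ P) (hQ : 1 ≤ Q) (hT : 1 ≤ T) (J : ℕ) :
    ∑ j ∈ Finset.range (J + 1), (Real.exp 4 * (64 * T ^ 3 / (T + 2 ^ j) ^ 4) / 2 ^ j) *
      (P * 4 ^ j * Real.log (3 * Q * 2 ^ j)) ≤ 128 * Real.exp 4 * P * Real.log (3 * Q * T) := by
  have hT0 : 0 < T := by linarith
  have hL : 1 ≤ Real.log (3 * Q * T) := by
    rw [Real.le_log_iff_exp_le (by positivity)]
    have := Real.exp_one_lt_d9
    have h1 : 1 ≤ Q * T := one_le_mul_of_one_le_of_one_le hQ hT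
    nlinarith
  have hterm : ∀ j : ℕ, (Real.exp 4 * (64 * T ^ 3 / (T + 2 ^ j) ^ 4) / 2 ^ j) *
      (P * 4 ^ j * Real.log (3 * Q * 2 ^ j)) ≤
      (128 * Real.exp 4 * P * Real.log (3 * Q * T)) * (T / (T + 2 ^ j) - T / (T + 2 ^ (j + 1))) := by
    intro j
    have h2j : (0 : ℝ) < 2 ^ j := by positivity
    obtain ⟨x, hx⟩ : ∃ x : ℝ, x = 2 ^ j := ⟨_, rfl⟩
    have h4j : (4 : ℝ) ^ j = x * x := by
      rw [hx, ← mul_pow]; norm_num
    have h2j1 : (2 : ℝ) ^ (j + 1) = x * 2 := by rw [hx, pow_succ]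
    rw [h2j1, h4j, ← hx]
    rw [← hx] at h2j
    have h1 : Real.log (3 * Q * x) ≤ Real.log (3 * Q * T) * ((T + x) / T) := by
      have h2 : 3 * Q * x ≤ (3 * Q * T) * (1 + x / T) := by
        have e : (3 * Q * T) * (1 + x / T) = 3 * Q * T + 3 * Q * x := by
          field_simp
        rw [e]
        have : 0 ≤ 3 * Q * T := by positivity
        linarith
      have h3 : Real.log (3 * Q * x) ≤ Real.log (3 * Q * T) + Real.log (1 + x / T) := by
        rw [← Real.log_mul (by positivity) (by positivity)]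
        exact Real.log_le_log (by positivity) h2
      have h4 : Real.log (1 + x / T) ≤ x / T := by
        have := Real.log_le_sub_one_of_pos (x := 1 + x / T) (by positivity)
        linarith
      have h5 : (T + x) / T = 1 + x / T := by field_simp
      rw [h5, mul_add, mul_one]
      have h6 : x / T ≤ Real.log (3 * Q * T) * (x / T) := by
        have : 0 ≤ x / T := by positivity
        nlinarith
      linarith
    have hTx : 0 < T + x := by positivity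
    have h2 : T / (T + x) - T / (T + x * 2) = T * x / ((T + x) * (T + x * 2)) := by
      field_simp
      ring
    have h3 : T * x / (2 * (T + x) ^ 2) ≤ T / (T + x) - T / (T + x * 2) := by
      rw [h2, div_le_div_iff₀ (by positivity) (by positivity)]
      have : 0 ≤ T * x := by positivity
      nlinarith [mul_pos hTx hT0]
    have hlog0 : 0 ≤ Real.log (3 * Q * T) := by linarith
    calc (Real.exp 4 * (64 * T ^ 3 / (T + x) ^ 4) / x) * (P * (x * x) * Real.log (3 * Q * x)) ≤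
        (Real.exp 4 * (64 * T ^ 3 / (T + x) ^ 4) / x) * (P * (x * x) * (Real.log (3 * Q * T) * ((T + x) / T))) := by
          gcongr
      _ = (128 * Real.exp 4 * P * Real.log (3 * Q * T)) * (T / (T + x) * (T * x / (2 * (T + x) ^ 2))) := by
          field_simp
          ring
      _ ≤ (128 * Real.exp 4 * P * Real.log (3 * Q * T)) * (1 * (T * x / (2 * (T + x) ^ 2))) := by
          have : T / (T + x) ≤ 1 := by
            rw [div_le_one hTx]; linarith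
          gcongr
      _ ≤ (128 * Real.exp 4 * P * Real.log (3 * Q * T)) * (T / (T + x) - T / (T + x * 2)) := by
          rw [one_mul]
          gcongr
  refine (Finset.sum_le_sum fun j _ => hterm j).trans ?_
  rw [← Finset.mul_sum, Finset.sum_range_sub' (fun j : ℕ => T / (T + 2 ^ j))]
  have h1 : T / (T + 2 ^ 0) ≤ 1 := by
    rw [div_le_one (by positivity)]
    linarith [pow_pos (two_pos : (0:ℝ) < 2) 0]
  have h2 : 0 ≤ T / (T + 2 ^ (J + 1)) := by positivity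
  have h3 : 0 ≤ 128 * Real.exp 4 * P * Real.log (3 * Q * T) := by
    have : 0 ≤ Real.log (3 * Q * T) := by linarith
    positivity
  nlinarith

theorem dya {g : ℝ → ℝ} (hg : Continuous g) (hg0 : ∀ t, 0 ≤ g t) {P Q T : ℝ} (hP : 0 ≤ P) (hQ : 1 ≤ Q)
    (hT : 1 ≤ T) (H : ∀ (j : ℕ) (B : ℝ), 0 ≤ B →
      ∫ t in (0 : ℝ)..B, (1 + t) * Real.exp (-(2 * t / 2 ^ j)) * g t ≤ P * 4 ^ j * Real.log (3 * Q * 2 ^ j))
    {m : ℕ} (hm : 1 ≤ m) (J : ℕ) :
    ∫ t in (0 : ℝ)..(2 ^ J), g t * wt m T t ≤ 128 * Real.exp 4 * P * Real.log (3 * Q * T) := by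
  have hT0 : 0 < T := by linarith
  have h2J : (0 : ℝ) ≤ 2 ^ J := by positivity
  refine le_trans ?_ (cst_sum hP hQ hT J)
  have h1 : ∫ t in (0 : ℝ)..(2 ^ J), g t * wt m T t ≤ ∫ t in (0 : ℝ)..(2 ^ J), ∑ j ∈ Finset.range (J + 1),
      (Real.exp 4 * (64 * T ^ 3 / (T + 2 ^ j) ^ 4) / 2 ^ j) * ((1 + t) * Real.exp (-(2 * t / 2 ^ j)) * g t) := by
    refine intervalIntegral.integral_mono_on h2J ?_ ?_ ?_
    · exact (hg.mul (wt_cont hT)).intervalIntegrable _ _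
    · refine Continuous.intervalIntegrable ?_ _ _
      refine continuous_finsetSum _ fun j _ => ?_
      exact continuous_const.mul ((by fun_prop : Continuous fun t : ℝ => (1 + t) * Real.exp (-(2 * t / 2 ^ j))).mul hg)
    · intro t ht
      have h2 := wt_sum (m := m) hT hm ht.1 J ht.2
      calc g t * wt m T t ≤ g t * ∑ j ∈ Finset.range (J + 1), (Real.exp 4 * (64 * T ^ 3 / (T + 2 ^ j) ^ 4) / 2 ^ j) *
            ((1 + t) * Real.exp (-(2 * t / 2 ^ j))) := mul_le_mul_of_nonneg_left h2 (hg0 t)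
        _ = _ := by
            rw [Finset.mul_sum]
            refine Finset.sum_congr rfl fun j _ => ?_
            ring
  refine h1.trans ?_
  rw [intervalIntegral.integral_finsetSum]
  · refine Finset.sum_le_sum fun j _ => ?_
    rw [intervalIntegral.integral_const_mul]
    exact mul_le_mul_of_nonneg_left (H j _ h2J) (by positivity)
  · intro j _
    refine Continuous.intervalIntegrable ?_ _ _
    exact continuous_const.mul ((by fun_prop : Continuous fun t : ℝ => (1 + t) * Real.exp (-(2 * t / 2 ^ j))).mul hg)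

/-- the half-line -/
theorem half {g : ℝ → ℝ} (hg : Continuous g) (hg0 : ∀ t, 0 ≤ g t) {P Q T : ℝ} (hP : 0 ≤ P) (hQ : 1 ≤ Q)
    (hT : 1 ≤ T) (H : ∀ (j : ℕ) (B : ℝ), 0 ≤ B →
      ∫ t in (0 : ℝ)..B, (1 + t) * Real.exp (-(2 * t / 2 ^ j)) * g t ≤ P * 4 ^ j * Real.log (3 * Q * 2 ^ j))
    {m : ℕ} (hm : 1 ≤ m) (hi : IntegrableOn (fun t => g t * wt m T t) (Ioi 0)) :
    ∫ t in Ioi (0 : ℝ), g t * wt m T t ≤ 128 * Real.exp 4 * P * Real.log (3 * Q * T) := by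
  have h1 : Tendsto (fun J : ℕ => (2 : ℝ) ^ J) atTop atTop := tendsto_pow_atTop_atTop_of_one_lt (by norm_num)
  have h2 := intervalIntegral_tendsto_integral_Ioi 0 hi h1
  exact le_of_tendsto h2 (Eventually.of_forall fun J => dya hg hg0 hP hQ hT H hm J)

/-- integrability -/
theorem half_int {g : ℝ → ℝ} (hg : Continuous g) (hg0 : ∀ t, 0 ≤ g t) {P Q T : ℝ} (hP : 0 ≤ P) (hQ : 1 ≤ Q)
    (hT : 1 ≤ T) (H : ∀ (j : ℕ) (B : ℝ), 0 ≤ B →
      ∫ t in (0 : ℝ)..B, (1 + t) * Real.exp (-(2 * t / 2 ^ j)) * g t ≤ P * 4 ^ j * Real.log (3 * Q * 2 ^ j))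
    {m : ℕ} (hm : 1 ≤ m) : IntegrableOn (fun t => g t * wt m T t) (Ioi 0) := by
  have h1 : Tendsto (fun J : ℕ => (2 : ℝ) ^ J) atTop atTop := tendsto_pow_atTop_atTop_of_one_lt (by norm_num)
  refine integrableOn_Ioi_of_intervalIntegral_norm_bounded (128 * Real.exp 4 * P * Real.log (3 * Q * T)) 0
    (b := fun J : ℕ => (2 : ℝ) ^ J) (l := atTop) (fun J => ?_) h1 (Eventually.of_forall fun J => ?_)
  · exact ((hg.mul (wt_cont hT)).continuousOn.integrableOn_Icc).mono_set Ioc_subset_Icc_self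
  · refine le_trans (le_of_eq ?_) (dya hg hg0 hP hQ hT H hm J)
    refine intervalIntegral.integral_congr fun t _ => ?_
    show ‖g t * wt m T t‖ = g t * wt m T t
    exact Real.norm_of_nonneg (mul_nonneg (hg0 t) (wt_nonneg hT t))

/-- the full line -/
theorem full {g : ℝ → ℝ} (hg : Continuous g) (hg0 : ∀ t, 0 ≤ g t) {P Q T : ℝ} (hP : 0 ≤ P) (hQ : 1 ≤ Q)
    (hT : 1 ≤ T) (H : ∀ (j : ℕ) (B : ℝ), 0 ≤ B →
      ∫ t in (0 : ℝ)..B, (1 + t) * Real.exp (-(2 * t / 2 ^ j)) * g t ≤ P * 4 ^ j * Real.log (3 * Q * 2 ^ j))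
    (H' : ∀ (j : ℕ) (B : ℝ), 0 ≤ B →
      ∫ t in (0 : ℝ)..B, (1 + t) * Real.exp (-(2 * t / 2 ^ j)) * g (-t) ≤ P * 4 ^ j * Real.log (3 * Q * 2 ^ j))
    {m : ℕ} (hm : 1 ≤ m) :
    Integrable (fun t => g t * wt m T t) ∧
    ∫ t : ℝ, g t * wt m T t ≤ 256 * Real.exp 4 * P * Real.log (3 * Q * T) := by
  have i1 := half_int hg hg0 hP hQ hT H hm
  have h1 := half hg hg0 hP hQ hT H hm i1
  have hgn : Continuous fun t => g (-t) := hg.comp continuous_neg
  have i2 := half_int (g := fun t => g (-t)) hgn (fun t => hg0 _) hP hQ hT H' hm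
  have h2 := half (g := fun t => g (-t)) hgn (fun t => hg0 _) hP hQ hT H' hm i2
  have e1 : ∀ t : ℝ, g (-t) * wt m T t = (fun t => g t * wt m T t) (-t) := fun t => by
    show _ = g (-t) * wt m T (-t)
    rw [wt_neg]
  have i3 : IntegrableOn (fun t => g t * wt m T t) (Iic 0) := by
    have h3 : IntegrableOn (fun t => (fun t => g t * wt m T t) (-t)) (Ioi 0) :=
      i2.congr_fun (fun t _ => e1 t) measurableSet_Ioi
    have h5 := ((Measure.measurePreserving_neg (volume : Measure ℝ)).integrableOn_comp_preimage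
      (Homeomorph.neg ℝ).measurableEmbedding (f := fun t => g t * wt m T t) (s := Iic 0)).1
    apply h5
    have e2 : ((fun x : ℝ => -x) ⁻¹' (Iic (0 : ℝ))) = Ici 0 := by
      ext x
      simp
    have e3 : (Neg.neg ⁻¹' (Iic (0 : ℝ))) = Ici 0 := e2
    rw [e3, integrableOn_Ici_iff_integrableOn_Ioi]
    exact h3
  have h3 : ∫ t in Ioi (0 : ℝ), g (-t) * wt m T t = ∫ t in Iic (0 : ℝ), g t * wt m T t := by
    have := integral_comp_neg_Ioi (0 : ℝ) (fun t => g t * wt m T t)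
    rw [neg_zero] at this
    rw [← this]
    exact setIntegral_congr_fun measurableSet_Ioi fun t _ => e1 t
  rw [h3] at h2
  have h4 := intervalIntegral.integral_Iic_add_Ioi (b := (0 : ℝ)) (f := fun t => g t * wt m T t) i3 i1
  refine ⟨?_, ?_⟩
  · rw [← integrableOn_univ, ← Iic_union_Ioi (a := (0 : ℝ))]
    exact i3.union i1
  · rw [← h4]
    linarith

end Pool.Agent.Y693.R4
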