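import Pool.Agent.Y693.R4.Hardy

set_option autoImplicit false

/-!
# Zeros near the line from a mean square
-/

namespace Pool.Agent.Y693.R4

open Complex MeasureTheory
open scoped ComplexConjugate

/-- the factor of one zero -/
lemma one_zero {A : ℝ} (hA : 1 ≤ A) {ρ : ℂ} (h0 : 0 ≤ ρ.re) (h1 : ρ.re ≤ 1) (h2 : |ρ.im| ≤ A)
    (hne : (A : ℂ) - ρ ≠ 0) :
    Real.exp (ρ.re / (2 * A)) ≤ (‖(A : ℂ) + conj ρ‖ / ‖(A : ℂ) - ρ‖) ^ 2 := by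
  have hA0 : 0 < A := by linarith
  have hn : 0 < ‖(A : ℂ) - ρ‖ := norm_pos_iff.2 hne
  have e1 : ‖(A : ℂ) - ρ‖ ^ 2 = (A - ρ.re) ^ 2 + ρ.im ^ 2 := by
    rw [← Complex.normSq_eq_norm_sq, Complex.normSq_apply]
    simp
    ring
  have e2 : ‖(A : ℂ) + conj ρ‖ ^ 2 = (A + ρ.re) ^ 2 + ρ.im ^ 2 := by
    rw [← Complex.normSq_eq_norm_sq, Complex.normSq_apply]
    simp
    ring
  have h3 : ‖(A : ℂ) - ρ‖ ^ 2 ≤ 2 * A ^ 2 := by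
    rw [e1]
    have h4 : ρ.im ^ 2 ≤ A ^ 2 := by
      rw [← sq_abs ρ.im]
      exact pow_le_pow_left₀ (abs_nonneg _) h2 2
    nlinarith
  have hn2 : 0 < ‖(A : ℂ) - ρ‖ ^ 2 := by positivity
  have h4 : 1 + 2 * (ρ.re / A) ≤ (‖(A : ℂ) + conj ρ‖ / ‖(A : ℂ) - ρ‖) ^ 2 := by
    rw [div_pow, le_div_iff₀ hn2]
    have h5 : ‖(A : ℂ) + conj ρ‖ ^ 2 = ‖(A : ℂ) - ρ‖ ^ 2 + 4 * A * ρ.re := by
      rw [e1, e2]; ring
    rw [h5, add_mul, one_mul]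
    have h6 : 2 * (ρ.re / A) * ‖(A : ℂ) - ρ‖ ^ 2 ≤ 2 * (ρ.re / A) * (2 * A ^ 2) := by
      have : 0 ≤ ρ.re / A := by positivity
      gcongr
    have h7 : 2 * (ρ.re / A) * (2 * A ^ 2) = 4 * A * ρ.re := by
      field_simp
      ring
    linarith
  refine le_trans ?_ h4
  have hx0 : 0 ≤ ρ.re / (2 * A) := by positivity
  have hx1 : ρ.re / (2 * A) ≤ 1 / 2 := by
    rw [div_le_div_iff₀ (by positivity) (by norm_num)]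
    nlinarith
  have e3 : 1 + 2 * (ρ.re / A) = 1 + 4 * (ρ.re / (2 * A)) := by
    field_simp
    ring
  rw [e3]
  have h5 := Real.abs_exp_sub_one_le (x := ρ.re / (2 * A)) (by rw [abs_of_nonneg hx0]; linarith)
  rw [abs_of_nonneg hx0] at h5
  have h6 := le_abs_self (Real.exp (ρ.re / (2 * A)) - 1)
  linarith

/-- the sum of the distances of the zeros to the line -/
theorem zeros_le {G : ℂ → ℂ} (hG : Differentiable ℂ G) {A C c : ℝ} {p m : ℕ} (hA : 1 ≤ A)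
    (hgr : ∀ z : ℂ, 0 ≤ z.re → ‖G z‖ ≤ C * (1 + ‖z‖) ^ p) (hpm : p + 1 ≤ m) (S : Finset ℂ)
    (hS : ∀ ρ ∈ S, 0 ≤ ρ.re ∧ ρ.re ≤ 1 ∧ |ρ.im| ≤ A ∧ G ρ = 0) (hc : 0 < c) (hGA : c ≤ ‖G A‖) :
    Real.exp ((∑ ρ ∈ S, (analyticOrderNatAt G ρ : ℝ) * ρ.re) / (2 * A)) ≤
      4 ^ m / (Real.pi * c ^ 2) *
        ∫ t : ℝ, ‖G (t * I)‖ ^ 2 * ((A ^ 2 / (A ^ 2 + t ^ 2)) ^ m * (A / (A ^ 2 + t ^ 2))) := by
  have hA0 : 0 < A := by linarith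
  have hGA0 : G A ≠ 0 := norm_pos_iff.1 (hc.trans_le hGA)
  have h1 := blaschke hG (A := A) (m := m) hA0 hgr hpm S hGA0
  have h2 : Real.exp ((∑ ρ ∈ S, (analyticOrderNatAt G ρ : ℝ) * ρ.re) / (2 * A)) ≤
      ∏ ρ ∈ S, (‖(A : ℂ) + conj ρ‖ / ‖(A : ℂ) - ρ‖) ^ (2 * analyticOrderNatAt G ρ) := by
    rw [Finset.sum_div, Real.exp_sum]
    refine Finset.prod_le_prod (fun _ _ => (Real.exp_pos _).le) fun ρ hρ => ?_
    obtain ⟨h3, h4, h5, h6⟩ := hS ρ hρ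
    have hne : (A : ℂ) - ρ ≠ 0 := by
      intro h
      apply hGA0
      rw [sub_eq_zero.1 h, h6]
    have h7 := one_zero hA h3 h4 h5 hne
    have e1 : Real.exp ((analyticOrderNatAt G ρ : ℝ) * ρ.re / (2 * A)) =
        Real.exp (ρ.re / (2 * A)) ^ analyticOrderNatAt G ρ := by
      rw [← Real.exp_nat_mul]
      congr 1
      ring
    rw [e1, pow_mul]
    exact pow_le_pow_left₀ (Real.exp_pos _).le h7 _
  set J : ℝ := ∫ t : ℝ, ‖G (t * I)‖ ^ 2 * ((A ^ 2 / (A ^ 2 + t ^ 2)) ^ m * (A / (A ^ 2 + t ^ 2))) with hJ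
  have hpi := Real.pi_pos
  have h4m : (0 : ℝ) < 4 ^ m := by positivity
  rw [div_mul_eq_mul_div, le_div_iff₀ (by positivity)]
  have h3 : c ^ 2 * (1 / 4) ^ m * Real.exp ((∑ ρ ∈ S, (analyticOrderNatAt G ρ : ℝ) * ρ.re) / (2 * A)) ≤
      1 / Real.pi * J := by
    refine le_trans ?_ h1
    have : c ^ 2 ≤ ‖G A‖ ^ 2 := pow_le_pow_left₀ hc.le hGA 2
    gcongr
  have h4 : (1 / 4 : ℝ) ^ m * 4 ^ m = 1 := by
    rw [← mul_pow]; norm_num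
  have h5 : Real.pi * (1 / Real.pi * J) = J := by
    field_simp
  obtain ⟨E, hE⟩ : ∃ E : ℝ, E = Real.exp ((∑ ρ ∈ S, (analyticOrderNatAt G ρ : ℝ) * ρ.re) / (2 * A)) := ⟨_, rfl⟩
  rw [← hE] at h3 ⊢
  obtain ⟨Q, hQ⟩ : ∃ Q : ℝ, Q = (4 : ℝ) ^ m := ⟨_, rfl⟩
  obtain ⟨R, hR⟩ : ∃ R : ℝ, R = (1 / 4 : ℝ) ^ m := ⟨_, rfl⟩
  rw [← hQ] at h4 h4m ⊢
  rw [← hR] at h4 h3
  calc E * (Real.pi * c ^ 2) = Real.pi * (c ^ 2 * R * E) * Q * 1 := by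
        have e1 : Real.pi * (c ^ 2 * R * E) * Q * 1 = E * (Real.pi * c ^ 2) * (R * Q) := by ring
        rw [e1, h4, mul_one]
    _ ≤ Real.pi * (1 / Real.pi * J) * Q * 1 := by gcongr
    _ = Q * J := by rw [h5]; ring

end Pool.Agent.Y693.R4
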