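import Pool.Agent.Y693.R4.Orth
import Pool.Agent.Y771.GL.MF
import Pool.Agent.W820.TW.FE

set_option autoImplicit false

/-!
# Uniform bounds for the twists
-/

namespace Pool.Agent.Y693.R4

open Complex Filter Topology MeasureTheory Set
open scoped ComplexConjugate
open Pool.Agent.Y671.GL

/-- upper bound -/
theorem up_all {N : ℕ} {ps lam : ℕ → ℂ} (hf : Frm 2 N ps lam) : ∃ B : ℝ, 1 ≤ B ∧ ∀ (q : ℕ)
    (χ : DirichletCharacter ℂ q) (F : ℂ → ℂ), IsL (twl lam χ) F → ∀ s : ℂ, 3 / 2 ≤ s.re → ‖F s‖ ≤ B := by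
  obtain ⟨-, -, -, h4⟩ := Pool.Agent.Y771.GL.mf 2 N ps lam hf
  have hs := (h4 (3 / 2) (by norm_num)).1
  refine ⟨(∑' n : ℕ, ‖lam n‖ * (n : ℝ) ^ (-(3 / 2 : ℝ))) + 1, ?_, ?_⟩
  · have : 0 ≤ ∑' n : ℕ, ‖lam n‖ * (n : ℝ) ^ (-(3 / 2 : ℝ)) := tsum_nonneg fun n => by positivity
    linarith
  intro q χ F hF s hre
  rw [hF.ser s (by linarith)]
  refine (tsum_of_norm_bounded hs.hasSum fun n => ?_).trans (by linarith)
  rcases Nat.eq_zero_or_pos n with rfl | hn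
  · unfold twl
    rw [hf.zero]
    simp
  · have hn1 : (1 : ℝ) ≤ n := by exact_mod_cast hn
    unfold twl
    rw [norm_mul, norm_mul, Complex.norm_natCast_cpow_of_pos hn, neg_re]
    have h6 := χ.norm_le_one (n : ZMod q)
    have h7 : (n : ℝ) ^ (-s.re) ≤ (n : ℝ) ^ (-(3 / 2 : ℝ)) :=
      Real.rpow_le_rpow_of_exponent_le hn1 (by linarith)
    calc ‖χ (n : ZMod q)‖ * ‖lam n‖ * (n : ℝ) ^ (-s.re) ≤ 1 * ‖lam n‖ * (n : ℝ) ^ (-(3 / 2 : ℝ)) := by gcongr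
      _ = _ := by ring

/-- lower bound far to the right -/
theorem low_all {N : ℕ} {ps lam : ℕ → ℂ} (hf : Frm 2 N ps lam) : ∃ A0 : ℝ, 2 ≤ A0 ∧ ∀ (q : ℕ)
    (χ : DirichletCharacter ℂ q) (F : ℂ → ℂ), IsL (twl lam χ) F → ∀ A : ℝ, A0 ≤ A → 1 / 2 ≤ ‖F (1 / 2 + A)‖ := by
  obtain ⟨th, C, hth0, hth1, hC⟩ := hf.ram
  have hC0 : 0 ≤ C := by
    have := hC 1 le_rfl
    rw [hf.one, norm_one, Nat.cast_one, Real.one_rpow, mul_one] at this
    linarith
  have hsum : Summable (fun n : ℕ => 1 / (n : ℝ) ^ 2) := Real.summable_one_div_nat_pow.2 (by norm_num)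
  obtain ⟨D, hD⟩ : ∃ D : ℝ, D = ∑' n : ℕ, 1 / (n : ℝ) ^ 2 := ⟨_, rfl⟩
  have hD0 : 0 ≤ D := by rw [hD]; exact tsum_nonneg fun n => by positivity
  obtain ⟨A0, hA0⟩ : ∃ A0 : ℝ, A0 = 2 + 4 * (C * D) := ⟨_, rfl⟩
  have hCD : 0 ≤ C * D := by positivity
  refine ⟨A0, by rw [hA0]; linarith, ?_⟩
  intro q χ F hF A hA
  have hA2 : 2 ≤ A := by rw [hA0] at hA; linarith
  have hre : (1 / 2 + A : ℂ).re = 1 / 2 + A := by simp
  rw [hF.ser _ (by rw [hre]; linarith)]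
  obtain ⟨u, hu⟩ : ∃ u : ℕ → ℂ, u = fun n => twl lam χ n * (n : ℂ) ^ (-(1 / 2 + A : ℂ)) := ⟨_, rfl⟩
  have hu0 : u 0 = 0 := by
    rw [hu]
    show twl lam χ 0 * _ = 0
    unfold twl
    rw [hf.zero, mul_zero, zero_mul]
  have hu1 : u 1 = 1 := by
    rw [hu]
    show twl lam χ 1 * ((1 : ℕ) : ℂ) ^ (-(1 / 2 + A : ℂ)) = 1
    unfold twl
    rw [hf.one, Nat.cast_one, Nat.cast_one, map_one, Complex.one_cpow, mul_one, mul_one]
  have hbd : ∀ n : ℕ, 2 ≤ n → ‖u n‖ ≤ C * (1 / 2) ^ (A - 2) * (1 / (n : ℝ) ^ 2) := by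
    intro n hn
    have hn0 : 0 < n := by omega
    have hn1 : (1 : ℝ) ≤ n := by exact_mod_cast hn0
    have hn2 : (2 : ℝ) ≤ n := by exact_mod_cast hn
    have hnp : (0 : ℝ) < n := by linarith
    rw [hu]
    show ‖twl lam χ n * (n : ℂ) ^ (-(1 / 2 + A : ℂ))‖ ≤ _
    unfold twl
    rw [norm_mul, norm_mul, Complex.norm_natCast_cpow_of_pos hn0, neg_re, hre]
    have h6 := χ.norm_le_one (n : ZMod q)
    have h7 : ‖lam n‖ ≤ C * (n : ℝ) ^ (1 / 2 : ℝ) := by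
      refine (hC n hn0).trans ?_
      have : (n : ℝ) ^ th ≤ (n : ℝ) ^ (1 / 2 : ℝ) := Real.rpow_le_rpow_of_exponent_le hn1 hth1.le
      gcongr
    have h8 : (n : ℝ) ^ (1 / 2 : ℝ) * (n : ℝ) ^ (-(1 / 2 + A)) = (n : ℝ) ^ (-(A - 2)) * (1 / (n : ℝ) ^ 2) := by
      have e : (1 / (n : ℝ) ^ 2) = (n : ℝ) ^ (-(2 : ℝ)) := by
        rw [Real.rpow_neg hnp.le, one_div]
        norm_num
      rw [e, ← Real.rpow_add hnp, ← Real.rpow_add hnp]
      congr 1
      ring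
    have h9 : (n : ℝ) ^ (-(A - 2)) ≤ (1 / 2 : ℝ) ^ (A - 2) := by
      rw [Real.rpow_neg hnp.le, ← Real.inv_rpow hnp.le]
      refine Real.rpow_le_rpow (by positivity) ?_ (by linarith)
      rw [inv_le_comm₀ hnp (by norm_num)]
      rw [one_div, inv_inv]
      exact hn2
    calc ‖χ (n : ZMod q)‖ * ‖lam n‖ * (n : ℝ) ^ (-(1 / 2 + A)) ≤
        1 * (C * (n : ℝ) ^ (1 / 2 : ℝ)) * (n : ℝ) ^ (-(1 / 2 + A)) := by gcongr
      _ = C * ((n : ℝ) ^ (1 / 2 : ℝ) * (n : ℝ) ^ (-(1 / 2 + A))) := by ring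
      _ = C * ((n : ℝ) ^ (-(A - 2)) * (1 / (n : ℝ) ^ 2)) := by rw [h8]
      _ ≤ C * ((1 / 2 : ℝ) ^ (A - 2) * (1 / (n : ℝ) ^ 2)) := by gcongr
      _ = _ := by ring
  have hus : Summable u := by
    refine Summable.of_norm_bounded_eventually_nat (hsum.mul_left (C * (1 / 2) ^ (A - 2))) ?_
    filter_upwards [eventually_ge_atTop 2] with n hn
    exact hbd n hn
  have h1 : ∑' n : ℕ, u n = 1 + ∑' n : ℕ, if n = 1 then 0 else u n := by
    rw [hus.tsum_eq_add_tsum_ite 1, hu1]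
  have h2 : ‖∑' n : ℕ, if n = 1 then 0 else u n‖ ≤ C * (1 / 2) ^ (A - 2) * D := by
    rw [hD]
    refine (tsum_of_norm_bounded (hsum.mul_left (C * (1 / 2) ^ (A - 2))).hasSum fun n => ?_).trans
      (le_of_eq tsum_mul_left)
    have hpos : 0 ≤ C * (1 / 2 : ℝ) ^ (A - 2) * (1 / (n : ℝ) ^ 2) := by positivity
    split_ifs with hn
    · rw [norm_zero]; exact hpos
    · rcases Nat.eq_zero_or_pos n with rfl | hn0
      · rw [hu0, norm_zero]; exact hpos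
      · exact hbd n (by omega)
  have h3 : C * (1 / 2 : ℝ) ^ (A - 2) * D ≤ 1 / 2 := by
    have h4 : (1 / 2 : ℝ) ^ (A - 2) ≤ (1 / 2 : ℝ) ^ (4 * (C * D)) := by
      refine Real.rpow_le_rpow_of_exponent_ge (by norm_num) (by norm_num) ?_
      rw [hA0] at hA
      linarith
    have h5 : (1 / 2 : ℝ) ^ (4 * (C * D)) * (2 * (C * D)) ≤ 1 := by
      have h6 : 2 * (C * D) ≤ (2 : ℝ) ^ (4 * (C * D)) := by
        have h7 : (2 : ℝ) ^ (4 * (C * D)) = Real.exp (Real.log 2 * (4 * (C * D))) :=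
          Real.rpow_def_of_pos (by norm_num) _
        rw [h7]
        have h8 := Real.add_one_le_exp (Real.log 2 * (4 * (C * D)))
        have h9 := Real.log_two_gt_d9
        nlinarith
      have h7 : (1 / 2 : ℝ) ^ (4 * (C * D)) * (2 : ℝ) ^ (4 * (C * D)) = 1 := by
        rw [← Real.mul_rpow (by norm_num) (by norm_num)]
        norm_num
      calc (1 / 2 : ℝ) ^ (4 * (C * D)) * (2 * (C * D)) ≤ (1 / 2 : ℝ) ^ (4 * (C * D)) * (2 : ℝ) ^ (4 * (C * D)) := by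
            gcongr
        _ = 1 := h7
    calc C * (1 / 2 : ℝ) ^ (A - 2) * D = (C * D) * (1 / 2 : ℝ) ^ (A - 2) := by ring
      _ ≤ (C * D) * (1 / 2 : ℝ) ^ (4 * (C * D)) := by gcongr
      _ = ((1 / 2 : ℝ) ^ (4 * (C * D)) * (2 * (C * D))) / 2 := by ring
      _ ≤ 1 / 2 := by linarith
  have h4 : (fun n : ℕ => twl lam χ n * (n : ℂ) ^ (-(1 / 2 + A : ℂ))) = u := hu.symm
  rw [h4, h1]
  have h5 := norm_sub_le_norm_add (1 : ℂ) (∑' n : ℕ, if n = 1 then 0 else u n)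
  rw [norm_one] at h5
  linarith

/-- the conjugate function -/
theorem fe2_conj {k : ℤ} {N Q : ℝ} (hN : 0 < N) (hQ : 0 < Q) {F : ℂ → ℂ} (hF : W388.FE2 k N Q F) :
    W388.FE2 k N Q (fun s => conj (F (conj s))) := by
  have hb : 0 < Real.sqrt N * Q / (2 * Real.pi) := by
    have := Real.pi_pos
    have := Real.sqrt_pos.2 hN
    positivity
  have hGG : ∀ s : ℂ, W388.GG k N Q (conj s) = conj (W388.GG k N Q s) := by
    intro s
    unfold W388.GG
    rw [map_mul, ← Complex.Gamma_conj]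
    congr 1
    · rw [Complex.cpow_conj _ _ (by
        rw [Complex.arg_ofReal_of_nonneg hb.le]
        exact Real.pi_pos.ne), Complex.conj_ofReal]
    · have h2 : (starRingEnd ℂ) 2 = 2 := Complex.conj_ofNat 2
      simp [h2]
  have hd : Differentiable ℂ (fun s => conj (F (conj s))) := by
    intro s
    have h1 := (hF.diff (conj s)).conj_conj
    rw [Complex.conj_conj] at h1
    exact h1
  refine ⟨hd, ?_, ?_⟩
  · obtain ⟨w, hw, h⟩ := hF.fe
    refine ⟨conj w, by rw [Complex.norm_conj]; exact hw, fun s hs => ?_⟩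
    have h1 := h (conj s) (by simpa using hs)
    have h2 := congrArg conj h1
    rw [hGG] at h2
    simp only [map_mul, Complex.conj_conj, map_sub, map_one] at h2 ⊢
    rw [h2]
    have e : W388.GG k N Q (1 - conj s) = conj (W388.GG k N Q (1 - s)) := by
      rw [← hGG]
      congr 1
      simp
    rw [e, Complex.conj_conj]
  · intro a b
    obtain ⟨C, hC⟩ := hF.vert a b
    refine ⟨C, fun s h1 h2 h3 => ?_⟩
    have h4 := hC (conj s) (by simpa using h1) (by simpa using h2) (by simpa using h3)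
    rw [hGG, norm_mul, Complex.norm_conj] at h4
    rw [norm_mul, Complex.norm_conj]
    exact h4

/-- polynomial growth, with an exponent independent of the twist -/
theorem grow_all {N : ℕ} {ps lam : ℕ → ℂ} (hf : Frm 2 N ps lam) : ∃ p : ℕ, ∀ (q : ℕ) [NeZero q]
    (χ : DirichletCharacter ℂ q) (F : ℂ → ℂ), IsL (twl lam χ) F → W388.FE2 2 N q F →
    ∃ C : ℝ, ∀ z : ℂ, 0 ≤ z.re → ‖F (1 / 2 + z)‖ ≤ C * (1 + ‖z‖) ^ p := by
  obtain ⟨B, hB1, hB⟩ := up_all hf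
  have hN1 : (1 : ℝ) ≤ N := by exact_mod_cast hf.N_pos
  obtain ⟨A, hA⟩ : ∃ A : ℝ, A = 2 + 2 * (B * N) * ((((2 : ℤ) : ℝ) - 1) / 2 + 6) ^ 2 := ⟨_, rfl⟩
  have hA2 : 2 ≤ A := by
    rw [hA]
    have : 0 ≤ 2 * (B * N) * ((((2 : ℤ) : ℝ) - 1) / 2 + 6) ^ 2 := by positivity
    linarith
  refine ⟨⌈A⌉₊, ?_⟩
  intro q _ χ F hF hFE
  have hq1 : (1 : ℝ) ≤ q := by exact_mod_cast Nat.one_le_iff_ne_zero.2 (NeZero.ne q)
  have hq0 : (0 : ℝ) < q := by linarith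
  -- one quadrant
  have hquad : ∀ F' : ℂ → ℂ, W388.FE2 2 N q F' → (∀ s : ℂ, 3 / 2 ≤ s.re → ‖F' s‖ ≤ B) → ∀ z : ℂ, 0 ≤ z.re →
      1 ≤ z.im → ‖F' (1 / 2 + z)‖ ≤ A * (q : ℝ) ^ A * (1 + ‖z‖) ^ ⌈A⌉₊ := by
    intro F' h1 h2 z hz hi
    have hre : (1 / 2 + z : ℂ).re = 1 / 2 + z.re := by simp
    have him : (1 / 2 + z : ℂ).im = z.im := by simp
    have h3 := Pool.Agent.W820.TW.F_growth (k := 2) (by norm_num) hN1 hq1 hB1 h1 h2 (A := A) hA.symm.le
      (1 / 2 + z) (by rw [hre]; linarith) (by rw [him]; exact hi)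
    rw [him] at h3
    refine h3.trans ?_
    rw [Real.mul_rpow hq0.le (by linarith), mul_assoc]
    refine mul_le_mul_of_nonneg_left ?_ (by linarith)
    refine mul_le_mul_of_nonneg_left ?_ (by positivity)
    have h4 : z.im ≤ 1 + ‖z‖ := by
      have := Complex.im_le_norm z
      linarith
    have h5 : 1 ≤ 1 + ‖z‖ := by linarith [norm_nonneg z]
    calc z.im ^ A ≤ (1 + ‖z‖) ^ A := Real.rpow_le_rpow (by linarith) h4 (by linarith)
      _ ≤ (1 + ‖z‖) ^ ((⌈A⌉₊ : ℕ) : ℝ) := Real.rpow_le_rpow_of_exponent_le h5 (Nat.le_ceil A)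
      _ = _ := Real.rpow_natCast _ _
  have hBF := hB q χ F hF
  -- compact part
  obtain ⟨D, hD⟩ := (isCompact_closedBall (0 : ℂ) 3).exists_bound_of_continuousOn
    (f := fun z => F (1 / 2 + z)) (hF.diff.continuous.comp (by fun_prop)).continuousOn
  have hD0 : 0 ≤ D := (norm_nonneg _).trans (hD 0 (by simp))
  have hAq : 0 ≤ A * (q : ℝ) ^ A := by positivity
  refine ⟨A * (q : ℝ) ^ A + B + D, fun z hz => ?_⟩
  have h1 : 1 ≤ (1 + ‖z‖) ^ ⌈A⌉₊ := one_le_pow₀ (by linarith [norm_nonneg z])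
  rcases le_or_gt 1 z.im with hi | hi
  · refine (hquad F hFE hBF z hz hi).trans ?_
    gcongr
    linarith
  rcases le_or_gt z.im (-1) with hi2 | hi2
  · have h2 := hquad (fun s => conj (F (conj s))) (fe2_conj (by linarith) hq0 hFE) (by
      intro s hs
      show ‖conj (F (conj s))‖ ≤ B
      rw [Complex.norm_conj]
      exact hBF _ (by simpa using hs)) (conj z) (by simpa using hz) (by simp; linarith)
    have e : conj (1 / 2 + conj z) = 1 / 2 + z := by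
      have h3 : (starRingEnd ℂ) 2 = 2 := Complex.conj_ofNat 2
      simp [h3]
    simp only [e, Complex.norm_conj] at h2
    refine h2.trans ?_
    gcongr
    linarith
  rcases le_or_gt 1 z.re with hr | hr
  · have h2 := hBF (1 / 2 + z) (by
      have : (1 / 2 + z : ℂ).re = 1 / 2 + z.re := by simp
      rw [this]
      linarith)
    nlinarith
  · have h2 : ‖F (1 / 2 + z)‖ ≤ D := by
      refine hD z ?_
      rw [mem_closedBall_zero_iff]
      refine (Complex.norm_le_abs_re_add_abs_im z).trans ?_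
      rw [abs_of_nonneg hz]
      have : |z.im| ≤ 1 := abs_le.2 ⟨hi2.le, hi.le⟩
      linarith
    nlinarith

end Pool.Agent.Y693.R4
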