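import Pool.Agent.Y693.R4.SM
import Pool.Agent.Y693.R4.Low
import Pool.Agent.Y693.R4.Chs
import Pool.Agent.Y693.R4.Jen
import Pool.Agent.Y693.GL.Ldt

set_option autoImplicit false

/-!
# The second moment over a group of characters
-/

namespace Pool.Agent.Y693.R4

open UpperHalfPlane hiding I
open MatrixGroups CongruenceSubgroup
open Complex Filter Topology MeasureTheory Set
open scoped ComplexConjugate
open Pool.Agent.Y671.GL
open Pool.Agent.Y771.NF
open Pool.Agent.W169.HF (IsForm coef)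
open Pool.Agent.W355.UN (isNewf_of coprime_cond)
open Pool.Agent.Y693.GL (l2 frm2 exists_L)

variable {N : ℕ} [NeZero N] {f : CuspForm (Gamma0 N : Subgroup (GL (Fin 2) ℝ)) 2} {w : ℝ}

omit [NeZero N] in
theorem l2_twl {q : ℕ} (χ : DirichletCharacter ℂ q) : l2 f χ = twl (lm (k := 2) f) χ := rfl

theorem frm0 (hf : IsForm N f w) : Frm 2 N (psN N) (lm (k := 2) f) := frm_newf (by norm_num) (isNewf_of hf)

/-- uniqueness -/
theorem isL_uniq {lam : ℕ → ℂ} {F F' : ℂ → ℂ} (h : IsL lam F) (h' : IsL lam F') : F = F' := by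
  have h1 : AnalyticOnNhd ℂ F univ := fun z _ => h.diff.analyticAt z
  have h2 : AnalyticOnNhd ℂ F' univ := fun z _ => h'.diff.analyticAt z
  refine h1.eq_of_eventuallyEq (z₀ := 2) h2 ?_
  have : ∀ᶠ z : ℂ in 𝓝 2, 1 < z.re := by
    refine (isOpen_lt continuous_const Complex.continuous_re).mem_nhds ?_
    show (1 : ℝ) < (2 : ℂ).re
    norm_num
  filter_upwards [this] with z hz
  rw [h.ser z hz, h'.ser z hz]

/-- the L-function of the twist by a primitive character -/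
noncomputable def Lf {N : ℕ} (f : CuspForm (Gamma0 N : Subgroup (GL (Fin 2) ℝ)) 2) (q : ℕ)
    (χ : DirichletCharacter ℂ q) : ℂ → ℂ := by
  classical
  exact if h : ∃ F : ℂ → ℂ, W388.FE2 2 N q F ∧ IsL (twl (lm (k := 2) f) χ) F then h.choose else 0

theorem Lf_spec (hf : IsForm N f w) {q : ℕ} [NeZero q] {χ : DirichletCharacter ℂ q} (hχ : χ.IsPrimitive)
    (hco : Nat.Coprime q N) : W388.FE2 2 N q (Lf f q χ) ∧ IsL (twl (lm (k := 2) f) χ) (Lf f q χ) := by
  have h : ∃ F : ℂ → ℂ, W388.FE2 2 N q F ∧ IsL (twl (lm (k := 2) f) χ) F := exists_L hf hχ hco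
  unfold Lf
  rw [dif_pos h]
  exact h.choose_spec

omit [NeZero N] in
theorem twl_inv {q : ℕ} (χ : DirichletCharacter ℂ q) (n : ℕ) :
    twl (lm (k := 2) f) χ⁻¹ n = conj (twl (lm (k := 2) f) χ n) := by
  unfold twl
  rw [map_mul]
  congr 1
  · rw [← RCLike.star_def, MulChar.star_apply']
  · show ((W388.lamf f n : ℝ) : ℂ) = conj ((W388.lamf f n : ℝ) : ℂ)
    rw [Complex.conj_ofReal]

theorem isL_conj {lam : ℕ → ℂ} {F : ℂ → ℂ} (h : IsL lam F) (h0 : lam 0 = 0) :
    IsL (fun n => conj (lam n)) (fun s => conj (F (conj s))) := by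
  refine ⟨?_, ?_⟩
  · intro s
    have h1 := (h.diff (conj s)).conj_conj
    rw [Complex.conj_conj] at h1
    exact h1
  · intro s hs
    rw [h.ser (conj s) (by simpa using hs), Complex.conj_tsum]
    refine tsum_congr fun n => ?_
    rcases Nat.eq_zero_or_pos n with rfl | hn
    · rw [h0]; simp
    · rw [map_mul]
      congr 1
      have h1 := Complex.cpow_conj (n : ℂ) (-(conj s)) (by
        rw [Complex.natCast_arg]
        exact Real.pi_pos.ne)
      simp only [map_neg, Complex.conj_conj, Complex.conj_natCast] at h1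
      exact h1.symm

/-- the second moment over primitive characters of one modulus -/
theorem mom (hf : IsForm N f w) : ∃ C : ℝ, 0 < C ∧ ∀ (q : ℕ) [NeZero q], Nat.Coprime q N →
    ∀ S : Finset (DirichletCharacter ℂ q), (∀ χ ∈ S, χ.IsPrimitive) → ∀ (T : ℝ), 1 ≤ T → ∀ m : ℕ, 1 ≤ m →
    (∀ χ ∈ S, Integrable (fun t : ℝ => ‖Lf f q χ (1 / 2 + t * I)‖ ^ 2 * wt m T t)) ∧
    ∑ χ ∈ S, ∫ t : ℝ, ‖Lf f q χ (1 / 2 + t * I)‖ ^ 2 * wt m T t ≤ C * Nat.totient q * Real.log (3 * q * T) := by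
  classical
  obtain ⟨C, hC, h⟩ := sm (frm0 hf)
  refine ⟨256 * Real.exp 4 * C, by positivity, ?_⟩
  intro q _ hco S hS T hT m hm
  have hq1 : (1 : ℝ) ≤ q := by exact_mod_cast Nat.one_le_iff_ne_zero.2 (NeZero.ne q)
  have hspec : ∀ χ ∈ S, W388.FE2 2 N q (Lf f q χ) ∧ IsL (twl (lm (k := 2) f) χ) (Lf f q χ) :=
    fun χ hχ => Lf_spec hf (hS χ hχ) hco
  have hgen : ∀ S' : Finset (DirichletCharacter ℂ q), S' ⊆ S →
      Integrable (fun t : ℝ => (∑ χ ∈ S', ‖Lf f q χ (1 / 2 + t * I)‖ ^ 2) * wt m T t) ∧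
      ∫ t : ℝ, (∑ χ ∈ S', ‖Lf f q χ (1 / 2 + t * I)‖ ^ 2) * wt m T t ≤
        256 * Real.exp 4 * (C * Nat.totient q) * Real.log (3 * q * T) := by
    intro S' hSS
    have hc : ∀ χ ∈ S', Continuous (fun t : ℝ => ‖Lf f q χ (1 / 2 + t * I)‖ ^ 2) := by
      intro χ hχ
      have h1 : Continuous (fun t : ℝ => (1 / 2 : ℂ) + t * I) := by fun_prop
      exact ((hspec χ (hSS hχ)).2.diff.continuous.comp h1).norm.pow 2
    refine full (continuous_finsetSum _ hc) (fun t => Finset.sum_nonneg fun _ _ => by positivity)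
      (by positivity) hq1 hT ?_ ?_ hm
    · intro j B hB
      exact h q S' (fun χ hχ => ⟨_, frm2 hf (hS χ (hSS hχ)) hco⟩) (Lf f q) (fun χ hχ => (hspec χ (hSS hχ)).2) j B hB
    · intro j B hB
      have hinv : ∀ χ ∈ S'.image (fun χ => χ⁻¹), χ.IsPrimitive ∧ χ⁻¹ ∈ S' := by
        intro χ hχ
        obtain ⟨ψ, hψ, rfl⟩ := Finset.mem_image.1 hχ
        refine ⟨Pool.Agent.W440.TW.inv_primitive ψ (hS ψ (hSS hψ)), ?_⟩
        rw [inv_inv]
        exact hψ
      have h1 := h q (S'.image (fun χ => χ⁻¹)) (fun χ hχ => ⟨_, frm2 hf (hinv χ hχ).1 hco⟩)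
        (fun χ s => conj (Lf f q χ⁻¹ (conj s))) (fun χ hχ => by
          have h2 := isL_conj (hspec χ⁻¹ (hSS (hinv χ hχ).2)).2 (by
            unfold twl
            rw [(frm0 hf).zero, mul_zero])
          have e : (fun n => conj (twl (lm (k := 2) f) χ⁻¹ n)) = twl (lm (k := 2) f) χ := by
            funext n
            rw [← twl_inv, inv_inv]
          rw [e] at h2
          exact h2) j B hB
      refine le_trans (le_of_eq ?_) h1
      refine intervalIntegral.integral_congr fun t _ => ?_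
      show _ * (∑ χ ∈ S', ‖Lf f q χ (1 / 2 + ((-t : ℝ) : ℂ) * I)‖ ^ 2) =
        _ * (∑ χ ∈ S'.image (fun χ => χ⁻¹), ‖conj (Lf f q χ⁻¹ (conj (1 / 2 + (t : ℂ) * I)))‖ ^ 2)
      congr 1
      rw [Finset.sum_image (fun a _ b _ hab => inv_injective hab)]
      refine Finset.sum_congr rfl fun χ _ => ?_
      rw [inv_inv, Complex.norm_conj]
      congr 3
      have h3 : (starRingEnd ℂ) 2 = 2 := Complex.conj_ofNat 2
      simp [h3]
  have hint : ∀ χ ∈ S, Integrable (fun t : ℝ => ‖Lf f q χ (1 / 2 + t * I)‖ ^ 2 * wt m T t) := by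
    intro χ hχ
    have h1 := (hgen {χ} (Finset.singleton_subset_iff.2 hχ)).1
    simpa using h1
  refine ⟨hint, ?_⟩
  rw [← integral_finsetSum S hint]
  have h1 := (hgen S (Finset.Subset.refl S)).2
  simp_rw [Finset.sum_mul] at h1
  refine h1.trans (le_of_eq ?_)
  ring

/-- the second moment over a group of characters -/
theorem momG (hf : IsForm N f w) : ∃ C : ℝ, 0 < C ∧ ∀ (M : ℕ) [NeZero M] (G : Subgroup (DirichletCharacter ℂ M))
    [Fintype G], Nat.Coprime M N → ∀ (T : ℝ), 1 ≤ T → ∀ m : ℕ, 1 ≤ m →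
    ∑ χ : G, ∫ t : ℝ, ‖Lf f (χ : DirichletCharacter ℂ M).conductor (χ : DirichletCharacter ℂ M).primitiveCharacter
      (1 / 2 + t * I)‖ ^ 2 * wt m T t ≤ C * M * Real.log (3 * M * T) := by
  obtain ⟨C, hC, h⟩ := mom hf
  refine ⟨C, hC, ?_⟩
  intro M _ G _ hco T hT m hm
  have hM1 : (1 : ℝ) ≤ M := by exact_mod_cast Nat.one_le_iff_ne_zero.2 (NeZero.ne M)
  have h1 := sum_le G (fun d χ => ∫ t : ℝ, ‖Lf f d χ (1 / 2 + t * I)‖ ^ 2 * wt m T t)
    (fun d χ => integral_nonneg fun t => mul_nonneg (by positivity) (wt_nonneg hT t))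
    (fun d => C * Nat.totient d * Real.log (3 * M * T)) (by
      intro d _ hd S hS
      refine (h d (Nat.Coprime.coprime_dvd_left hd hco) S hS T hT m hm).2.trans ?_
      have hd0 : (1 : ℝ) ≤ d := by exact_mod_cast Nat.one_le_iff_ne_zero.2 (NeZero.ne d)
      have hdM : (d : ℝ) ≤ M := by exact_mod_cast Nat.le_of_dvd (Nat.pos_of_ne_zero (NeZero.ne M)) hd
      have hlog : Real.log (3 * d * T) ≤ Real.log (3 * M * T) := Real.log_le_log (by positivity) (by gcongr)
      gcongr)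
  refine h1.trans (le_of_eq ?_)
  rw [← Finset.sum_mul, ← Finset.mul_sum]
  congr 2
  have h2 := Nat.sum_totient M
  exact_mod_cast h2

end Pool.Agent.Y693.R4
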