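import Pool.Agent.Y693.R4.Zer

set_option autoImplicit false

/-!
# Zeros of L-functions over abelian fields near the line, uniformly in the field
-/

namespace Pool.Agent.Y693.R4

open UpperHalfPlane hiding I
open MatrixGroups CongruenceSubgroup
open Complex Filter Topology MeasureTheory Set
open scoped ComplexConjugate
open Pool.Agent.Y671.GL
open Pool.Agent.Y771.NF
open Pool.Agent.W169.HF (IsForm coef)
open Pool.Agent.W355.UN (facE prodE isNewf_of coprime_cond Pk)
open Pool.Agent.Y693.GL (l2 frm2 exists_L ldata_tw)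

variable {N : ℕ} [NeZero N] {f : CuspForm (Gamma0 N : Subgroup (GL (Fin 2) ℝ)) 2} {w : ℝ}

/-- Jensen's inequality for the exponential function -/
lemma jen {ι : Type*} [Fintype ι] [Nonempty ι] (E : ι → ℝ) {K : ℝ} (h : ∑ i, Real.exp (E i) ≤ K) :
    ∑ i, E i ≤ Fintype.card ι * Real.log (K / Fintype.card ι) := by
  have hn : (0 : ℝ) < Fintype.card ι := by exact_mod_cast Fintype.card_pos
  have h1 := convexOn_exp.map_sum_le (t := Finset.univ) (w := fun _ : ι => 1 / (Fintype.card ι : ℝ)) (p := E)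
    (fun _ _ => by positivity) (by
      rw [Finset.sum_const, Finset.card_univ, nsmul_eq_mul]
      field_simp) (fun _ _ => mem_univ _)
  simp only [smul_eq_mul] at h1
  rw [← Finset.mul_sum, ← Finset.mul_sum] at h1
  have h2 : Real.exp (1 / (Fintype.card ι : ℝ) * ∑ i, E i) ≤ K / Fintype.card ι := by
    refine h1.trans ?_
    rw [one_div, inv_mul_eq_div]
    gcongr
  have h3 := Real.log_le_log (Real.exp_pos _) h2
  rw [Real.log_exp, one_div, inv_mul_le_iff₀ hn] at h3
  exact h3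

section
variable {M : ℕ} [NeZero M] (G : Subgroup (DirichletCharacter ℂ M)) [Fintype G]

/-- the L-function of a character of the group, centred -/
noncomputable def Gx {N : ℕ} (f : CuspForm (Gamma0 N : Subgroup (GL (Fin 2) ℝ)) 2) {M : ℕ}
    (χ : DirichletCharacter ℂ M) (z : ℂ) : ℂ := Lf f χ.conductor χ.primitiveCharacter (1 / 2 + z)

end

theorem core (hf : IsForm N f w) : ∃ C A0 : ℝ, 0 < C ∧ 2 ≤ A0 ∧ ∀ (M : ℕ) [NeZero M]
    (G : Subgroup (DirichletCharacter ℂ M)) [Fintype G], Nat.Coprime M N → ∀ T : ℝ, 1 ≤ T →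
    ∀ R : Finset ℂ, (∀ ρ ∈ R, 0 ≤ ρ.re ∧ ρ.re ≤ 1 ∧ |ρ.im| ≤ T) →
    ∑ χ : G, ∑ ρ ∈ R, (analyticOrderNatAt (Gx f (χ : DirichletCharacter ℂ M)) ρ : ℝ) * ρ.re ≤
      2 * (A0 * T) * (Fintype.card G * Real.log (C * M * Real.log (3 * M * (A0 * T)) / Fintype.card G)) := by
  classical
  obtain ⟨C1, hC1, hmom⟩ := momG hf
  obtain ⟨A0, hA0, hlow⟩ := low_all (frm0 hf)
  obtain ⟨p, hgrow⟩ := grow_all (frm0 hf)
  have hpi := Real.pi_pos
  refine ⟨4 ^ (p + 1) / (Real.pi * (1 / 2) ^ 2) * C1, A0, by positivity, hA0, ?_⟩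
  intro M _ G _ hco T hT R hR
  obtain ⟨A, hA⟩ : ∃ A : ℝ, A = A0 * T := ⟨_, rfl⟩
  have hA2 : A0 ≤ A := by rw [hA]; nlinarith
  have hA1 : 1 ≤ A := by linarith
  have hTA : T ≤ A := by rw [hA]; nlinarith
  have hAp : 0 < A := by linarith
  rw [← hA]
  obtain ⟨E, hE⟩ : ∃ E : G → ℝ, E = fun χ : G =>
    (∑ ρ ∈ R, (analyticOrderNatAt (Gx f (χ : DirichletCharacter ℂ M)) ρ : ℝ) * ρ.re) / (2 * A) := ⟨_, rfl⟩
  have hexp : ∀ χ : G, Real.exp (E χ) ≤ 4 ^ (p + 1) / (Real.pi * (1 / 2) ^ 2) *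
      ∫ t : ℝ, ‖Lf f (χ : DirichletCharacter ℂ M).conductor (χ : DirichletCharacter ℂ M).primitiveCharacter
        (1 / 2 + t * I)‖ ^ 2 * wt (p + 1) A t := by
    intro χ
    have : NeZero (χ : DirichletCharacter ℂ M).conductor := ⟨DirichletCharacter.conductor_ne_zero _⟩
    obtain ⟨s1, s2⟩ := Lf_spec hf (DirichletCharacter.primitiveCharacter_isPrimitive (χ : DirichletCharacter ℂ M))
      (coprime_cond hco _)
    obtain ⟨C, hC⟩ := hgrow _ _ _ s2 s1
    have hGd : Differentiable ℂ (Gx f (χ : DirichletCharacter ℂ M)) := by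
      unfold Gx
      exact s2.diff.comp (by fun_prop)
    have h1 := zeros_le hGd (A := A) (C := C) (c := 1 / 2) (p := p) (m := p + 1) hA1 (fun z hz => hC z hz) le_rfl
      (R.filter (fun ρ => Gx f (χ : DirichletCharacter ℂ M) ρ = 0)) (fun ρ hρ => by
        obtain ⟨g1, g2⟩ := Finset.mem_filter.1 hρ
        obtain ⟨g3, g4, g5⟩ := hR ρ g1
        exact ⟨g3, g4, g5.trans hTA, g2⟩) (by norm_num) (hlow _ _ _ s2 A hA2)
    have h2 : ∑ ρ ∈ R.filter (fun ρ => Gx f (χ : DirichletCharacter ℂ M) ρ = 0),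
        (analyticOrderNatAt (Gx f (χ : DirichletCharacter ℂ M)) ρ : ℝ) * ρ.re =
        ∑ ρ ∈ R, (analyticOrderNatAt (Gx f (χ : DirichletCharacter ℂ M)) ρ : ℝ) * ρ.re := by
      refine Finset.sum_filter_of_ne fun ρ _ hne => ?_
      by_contra h0
      apply hne
      have h3 : analyticOrderNatAt (Gx f (χ : DirichletCharacter ℂ M)) ρ = 0 := by
        unfold analyticOrderNatAt
        rw [(hGd.analyticAt ρ).analyticOrderAt_eq_zero.2 h0]
        rfl
      rw [h3]
      simp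
    rw [h2] at h1
    rw [hE]
    exact h1
  have hsum : ∑ χ : G, Real.exp (E χ) ≤
      4 ^ (p + 1) / (Real.pi * (1 / 2) ^ 2) * C1 * M * Real.log (3 * M * A) := by
    refine (Finset.sum_le_sum fun χ _ => hexp χ).trans ?_
    rw [← Finset.mul_sum]
    have h1 := hmom M G hco A hA1 (p + 1) (by omega)
    calc 4 ^ (p + 1) / (Real.pi * (1 / 2) ^ 2) * _ ≤
        4 ^ (p + 1) / (Real.pi * (1 / 2) ^ 2) * (C1 * M * Real.log (3 * M * A)) :=
          mul_le_mul_of_nonneg_left h1 (by positivity)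
      _ = _ := by ring
  have h3 := jen E hsum
  have h4 : ∑ χ : G, ∑ ρ ∈ R, (analyticOrderNatAt (Gx f (χ : DirichletCharacter ℂ M)) ρ : ℝ) * ρ.re =
      2 * A * ∑ χ : G, E χ := by
    rw [hE, Finset.mul_sum]
    refine Finset.sum_congr rfl fun χ _ => ?_
    field_simp
  rw [h4]
  exact mul_le_mul_of_nonneg_left h3 (by positivity)

/-- **The theorem for all abelian fields.** -/
theorem lit (hf : IsForm N f w) : ∃ C : ℝ, 0 < C ∧ ∀ (M : ℕ) [NeZero M]
    (G : Subgroup (DirichletCharacter ℂ M)) [Fintype G], Nat.Coprime M N → ∀ Λ : ℂ → ℂ, Differentiable ℂ Λ →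
    (∃ σ : ℝ, ∀ s : ℂ, σ ≤ s.re → Λ s = prodE G f s) → ∀ T : ℝ, 1 ≤ T →
    ∀ S : Finset ℂ, (∀ ρ ∈ S, Λ ρ = 0 ∧ |ρ.im| ≤ T) →
    ∑ ρ ∈ S, (analyticOrderNatAt Λ ρ : ℝ) * |ρ.re - 1| ≤
      C * Fintype.card G * T * (1 + Real.log (M / Fintype.card G) + Real.log (Real.log (3 * M * T))) := by
  classical
  obtain ⟨C, A0, hC, hA0, hcore⟩ := core hf
  obtain ⟨D, hD⟩ : ∃ D : ℝ, D = 1 + |Real.log (C * (1 + Real.log A0))| := ⟨_, rfl⟩
  have hD1 : 1 ≤ D := by rw [hD]; linarith [abs_nonneg (Real.log (C * (1 + Real.log A0)))]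
  refine ⟨4 * A0 * D, by positivity, ?_⟩
  intro M _ G _ hco Λ hd hΛ T hT S hS
  obtain ⟨d1, d2, d3, d4⟩ := Lam_data G hf hco hd hΛ
  have hn : (0 : ℝ) < Fintype.card G := by exact_mod_cast Fintype.card_pos
  have hM1 : (1 : ℝ) ≤ M := by exact_mod_cast Nat.one_le_iff_ne_zero.2 (NeZero.ne M)
  have hcardM : (Fintype.card G : ℝ) ≤ M := by
    have h1 : Nat.card G ≤ Nat.card (DirichletCharacter ℂ M) := by
      exact Nat.card_le_card_of_injective (Subtype.val : G → DirichletCharacter ℂ M) Subtype.val_injective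
    have h2 : Nat.card (DirichletCharacter ℂ M) = Nat.totient M :=
      DirichletCharacter.card_eq_totient_of_hasEnoughRootsOfUnity ℂ M
    have h3 : Nat.totient M ≤ M := Nat.totient_le M
    rw [h2, Nat.card_eq_fintype_card] at h1
    exact_mod_cast h1.trans h3
  have hlM : 0 ≤ Real.log (M / Fintype.card G) := Real.log_nonneg (by rw [le_div_iff₀ hn]; linarith)
  have hL3 : 1 ≤ Real.log (3 * M * T) := by
    rw [Real.le_log_iff_exp_le (by positivity)]
    have := Real.exp_one_lt_d9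
    have h1 : 1 ≤ M * T := one_le_mul_of_one_le_of_one_le hM1 hT
    nlinarith
  have hlL : 0 ≤ Real.log (Real.log (3 * M * T)) := Real.log_nonneg hL3
  have hlA : 0 ≤ Real.log A0 := Real.log_nonneg (by linarith)
  -- the constant
  have hbig : Real.log (C * M * Real.log (3 * M * (A0 * T)) / Fintype.card G) ≤
      D * (1 + Real.log (M / Fintype.card G) + Real.log (Real.log (3 * M * T))) := by
    have h1 : Real.log (3 * M * (A0 * T)) ≤ (1 + Real.log A0) * Real.log (3 * M * T) := by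
      have e : 3 * M * (A0 * T) = A0 * (3 * M * T) := by ring
      rw [e, Real.log_mul (by positivity) (by positivity)]
      nlinarith
    have h10 : 0 < Real.log (3 * M * (A0 * T)) := by
      have : Real.log (3 * M * T) ≤ Real.log (3 * M * (A0 * T)) := by
        refine Real.log_le_log (by positivity) ?_
        have : T ≤ A0 * T := by nlinarith
        gcongr
      linarith
    have h2 : C * M * Real.log (3 * M * (A0 * T)) / Fintype.card G ≤
        (C * (1 + Real.log A0)) * (M / Fintype.card G) * Real.log (3 * M * T) := by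
      have e : (C * (1 + Real.log A0)) * (M / Fintype.card G) * Real.log (3 * M * T) =
          C * M * ((1 + Real.log A0) * Real.log (3 * M * T)) / Fintype.card G := by ring
      rw [e]
      gcongr
    refine (Real.log_le_log (by positivity) h2).trans ?_
    rw [Real.log_mul (by positivity) (by positivity), Real.log_mul (by positivity) (by positivity)]
    have h3 : Real.log (C * (1 + Real.log A0)) ≤ D := by
      rw [hD]
      linarith [le_abs_self (Real.log (C * (1 + Real.log A0)))]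
    nlinarith
  obtain ⟨L, hL⟩ : ∃ L : ℝ, L = 1 + Real.log (M / Fintype.card G) + Real.log (Real.log (3 * M * T)) := ⟨_, rfl⟩
  rw [← hL] at hbig ⊢
  -- one side
  have hside : ∀ R : Finset ℂ, (∀ ρ ∈ R, 0 ≤ ρ.re ∧ ρ.re ≤ 1 ∧ |ρ.im| ≤ T) →
      ∑ ρ ∈ R, (analyticOrderNatAt Λ (1 + ρ) : ℝ) * ρ.re ≤ 2 * A0 * D * Fintype.card G * T * L := by
    intro R hR
    have h1 := hcore M G hco T hT R hR
    rw [Finset.sum_comm] at h1
    have h2 : ∑ ρ ∈ R, (analyticOrderNatAt Λ (1 + ρ) : ℝ) * ρ.re =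
        ∑ ρ ∈ R, ∑ χ : G, (analyticOrderNatAt (Gx f (χ : DirichletCharacter ℂ M)) ρ : ℝ) * ρ.re := by
      refine Finset.sum_congr rfl fun ρ hρ => ?_
      rw [d4 (1 + ρ) (by simp; exact (hR ρ hρ).1)]
      have e : (1 : ℂ) + ρ - 1 = ρ := by ring
      rw [e, ← Finset.sum_mul]
      push_cast
      rfl
    rw [h2]
    refine h1.trans ?_
    calc 2 * (A0 * T) * (Fintype.card G * Real.log (C * M * Real.log (3 * M * (A0 * T)) / Fintype.card G)) ≤
        2 * (A0 * T) * (Fintype.card G * (D * L)) := by gcongr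
      _ = _ := by ring
  have hsplit : ∑ ρ ∈ S, (analyticOrderNatAt Λ ρ : ℝ) * |ρ.re - 1| =
      ∑ ρ ∈ (S.filter (fun ρ => 1 ≤ ρ.re)).image (fun ρ => ρ - 1), (analyticOrderNatAt Λ (1 + ρ) : ℝ) * ρ.re +
      ∑ ρ ∈ (S.filter (fun ρ => ¬ 1 ≤ ρ.re)).image (fun ρ => 1 - conj ρ), (analyticOrderNatAt Λ (1 + ρ) : ℝ) * ρ.re := by
    rw [← Finset.sum_filter_add_sum_filter_not S (fun ρ : ℂ => 1 ≤ ρ.re)]
    congr 1
    · rw [Finset.sum_image (fun a _ b _ h => by simpa using h)]
      refine Finset.sum_congr rfl fun ρ hρ => ?_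
      have h1 := (Finset.mem_filter.1 hρ).2
      have e : (1 : ℂ) + (ρ - 1) = ρ := by ring
      rw [e, abs_of_nonneg (by linarith)]
      simp
    · rw [Finset.sum_image (fun a _ b _ h => by
        have h1 : conj a = conj b := by
          have h2 : (1 : ℂ) - conj a = 1 - conj b := h
          linear_combination -h2
        exact star_injective h1)]
      refine Finset.sum_congr rfl fun ρ hρ => ?_
      have h1 := (Finset.mem_filter.1 hρ).2
      rw [not_le] at h1
      have e : (1 : ℂ) + (1 - conj ρ) = 2 - conj ρ := by ring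
      rw [e, d2, abs_of_neg (by linarith)]
      simp
  rw [hsplit]
  have h1 := hside ((S.filter (fun ρ => 1 ≤ ρ.re)).image (fun ρ => ρ - 1)) (by
    intro ρ hρ
    obtain ⟨s, hs, rfl⟩ := Finset.mem_image.1 hρ
    obtain ⟨hsS, hs1⟩ := Finset.mem_filter.1 hs
    obtain ⟨h0, hi⟩ := hS s hsS
    have h2 := abs_le.1 (d1 s h0)
    refine ⟨?_, ?_, ?_⟩
    · simp; exact hs1
    · simp; linarith
    · simpa using hi)
  have h2 := hside ((S.filter (fun ρ => ¬ 1 ≤ ρ.re)).image (fun ρ => 1 - conj ρ)) (by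
    intro ρ hρ
    obtain ⟨s, hs, rfl⟩ := Finset.mem_image.1 hρ
    obtain ⟨hsS, hs1⟩ := Finset.mem_filter.1 hs
    rw [not_le] at hs1
    obtain ⟨h0, hi⟩ := hS s hsS
    have h2 := abs_le.1 (d1 s h0)
    refine ⟨?_, ?_, ?_⟩
    · simp; linarith
    · simp; linarith
    · simpa using hi)
  calc _ ≤ 2 * A0 * D * Fintype.card G * T * L + 2 * A0 * D * Fintype.card G * T * L := add_le_add h1 h2
    _ = _ := by ring

end Pool.Agent.Y693.R4
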