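import Pool.Agent.Y693.R4.Ray
import Pool.Agent.Helper112.MultLS

set_option autoImplicit false

/-!
# The mean square over all characters modulo `q` is an average of translates
-/

namespace Pool.Agent.Y693.R4

open Complex Filter Topology MeasureTheory Set
open scoped ComplexConjugate
open Pool.Agent.Y671.GL
open Pool.Agent.Y180.GL (Cr ph_bd summ aa_zero)

/-- the twist of a sequence -/
noncomputable def twl (lam : ℕ → ℂ) {q : ℕ} (χ : DirichletCharacter ℂ q) (n : ℕ) : ℂ := χ (n : ZMod q) * lam n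

variable {lam : ℕ → ℂ} {B : ℝ} {q : ℕ} [NeZero q]

/-- the part of the series in a residue class -/
noncomputable def prt (k : ℕ) (lam : ℕ → ℂ) (q : ℕ) (z : ℂ) (a : ZMod q) : ℂ := by
  classical
  exact ∑' n : ℕ, if (n : ZMod q) = a then aa k lam n * cexp (-(n * z)) else 0

lemma split (k : ℕ) (hlam : Cr B lam) {z : ℂ} (hz : 0 < z.re) (c : ZMod q → ℂ) :
    ∑' n : ℕ, c (n : ZMod q) * (aa k lam n * cexp (-(n * z))) = ∑ a : ZMod q, c a * prt k lam q z a := by
  classical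
  have hs := summ k hlam hz
  have hs' : ∀ a : ZMod q, Summable (fun n : ℕ => if (n : ZMod q) = a then aa k lam n * cexp (-(n * z)) else 0) := by
    intro a
    refine Summable.of_norm_bounded hs.norm fun n => ?_
    split_ifs
    · exact le_rfl
    · rw [norm_zero]; exact norm_nonneg _
  have h1 : ∀ n : ℕ, c (n : ZMod q) * (aa k lam n * cexp (-(n * z))) =
      ∑ a : ZMod q, c a * (if (n : ZMod q) = a then aa k lam n * cexp (-(n * z)) else 0) := by
    intro n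
    rw [Finset.sum_eq_single (n : ZMod q)]
    · rw [if_pos rfl]
    · intro a _ ha
      rw [if_neg (Ne.symm ha), mul_zero]
    · intro h; exact absurd (Finset.mem_univ _) h
  rw [tsum_congr h1, Summable.tsum_finsetSum fun a _ => (hs' a).mul_left (c a)]
  refine Finset.sum_congr rfl fun a _ => ?_
  rw [tsum_mul_left]
  unfold prt
  congr!

lemma ph_twl (k : ℕ) (hlam : Cr B lam) {z : ℂ} (hz : 0 < z.re) (χ : DirichletCharacter ℂ q) :
    Ph k (twl lam χ) z = ∑ a : ZMod q, χ a * prt k lam q z a := by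
  rw [← split k hlam hz]
  unfold Ph
  refine tsum_congr fun n => ?_
  unfold aa twl
  ring

lemma ph_shift (k : ℕ) (hlam : Cr B lam) {z : ℂ} (hz : 0 < z.re) (b : ZMod q) :
    Ph k lam (z - 2 * Real.pi * I * (b.val : ℂ) / q) = ∑ a : ZMod q, prt k lam q z a * ZMod.stdAddChar (b * a) := by
  have h0 := split k hlam hz (q := q) (fun a => ZMod.stdAddChar (b * a))
  rw [Finset.sum_congr rfl (fun a _ => mul_comm (prt k lam q z a) _), ← h0]
  unfold Ph
  refine tsum_congr fun n => ?_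
  have h1 : (b * (n : ZMod q) : ZMod q) = (((b.val * n : ℕ) : ℤ) : ZMod q) := by
    push_cast
    rw [ZMod.natCast_zmod_val]
  rw [h1, ZMod.stdAddChar_coe, mul_left_comm, ← Complex.exp_add]
  congr 2
  push_cast
  ring

/-- the mean square over all characters -/
theorem orth (k : ℕ) (hlam : Cr B lam) {z : ℂ} (hz : 0 < z.re) :
    ∑ χ : DirichletCharacter ℂ q, ‖Ph k (twl lam χ) z‖ ^ 2 ≤
      (Nat.totient q : ℝ) / q * ∑ b : ZMod q, ‖Ph k lam (z - 2 * Real.pi * I * (b.val : ℂ) / q)‖ ^ 2 := by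
  classical
  have hq : (0 : ℝ) < q := by exact_mod_cast Nat.pos_of_ne_zero (NeZero.ne q)
  have h1 : ∑ χ : DirichletCharacter ℂ q, ‖Ph k (twl lam χ) z‖ ^ 2 =
      ∑ χ : DirichletCharacter ℂ q, ‖∑ a : ZMod q, χ⁻¹ a * prt k lam q z a‖ ^ 2 := by
    rw [← Equiv.sum_comp (Equiv.inv (DirichletCharacter ℂ q))]
    refine Finset.sum_congr rfl fun χ _ => ?_
    rw [Equiv.inv_apply, ph_twl k hlam hz]
  rw [h1, Pool.Agent.Helper112.MLS.sum_all]
  simp_rw [ph_shift k hlam hz]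
  rw [Pool.Agent.Helper112.MLS.parseval, ← mul_assoc, div_mul_cancel₀ _ hq.ne']
  refine mul_le_mul_of_nonneg_left ?_ (Nat.cast_nonneg _)
  have h2 : ∑ a : (ZMod q)ˣ, ‖prt k lam q z (a : ZMod q)‖ ^ 2 =
      ∑ a ∈ (Finset.univ : Finset (ZMod q)ˣ).image (fun u : (ZMod q)ˣ => (u : ZMod q)),
        ‖prt k lam q z a‖ ^ 2 := by
    rw [Finset.sum_image (fun a _ b _ h => Units.ext h)]
  rw [h2]
  exact Finset.sum_le_sum_of_subset_of_nonneg (Finset.subset_univ _) fun _ _ _ => by positivity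

/-- the size of the form -/
theorem size {N : ℕ} {ps lam : ℕ → ℂ} (hf : Frm 2 N ps lam) : ∃ C : ℝ, 0 < C ∧ ∀ z : ℂ, 0 < z.re →
    ‖Ph 2 lam z‖ ^ 2 ≤ C / (z.re ^ 2 * (1 + z.re)) := by
  obtain ⟨B, hcr⟩ := Pool.Agent.Y180.GL.cr_of hf
  obtain ⟨C1, h1⟩ := hf.bd
  obtain ⟨C2, hC2, h2⟩ := ph_bd 2 hcr (c := 1) one_pos
  refine ⟨2 * C1 ^ 2 + 12 * C2 ^ 2 + 1, by positivity, fun z hz => ?_⟩
  rw [le_div_iff₀ (by positivity)]
  obtain ⟨x, hx⟩ : ∃ x : ℝ, x = z.re := ⟨_, rfl⟩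
  rw [← hx] at hz ⊢
  rcases le_total x 1 with hx1 | hx1
  · have h3 := h1 z (by rw [← hx]; exact hz)
    rw [← hx] at h3
    have e : (-(((2 : ℕ) : ℝ) / 2)) = -1 := by norm_num
    rw [e, Real.rpow_neg_one] at h3
    have h4 : ‖Ph 2 lam z‖ * x ≤ C1 := by
      have := mul_le_mul_of_nonneg_right h3 hz.le
      rwa [mul_assoc, inv_mul_cancel₀ hz.ne', mul_one] at this
    have h5 : (‖Ph 2 lam z‖ * x) ^ 2 ≤ C1 ^ 2 := pow_le_pow_left₀ (by positivity) h4 2
    calc ‖Ph 2 lam z‖ ^ 2 * (x ^ 2 * (1 + x)) = (‖Ph 2 lam z‖ * x) ^ 2 * (1 + x) := by ring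
      _ ≤ C1 ^ 2 * 2 := by
          gcongr
          linarith
      _ ≤ _ := by nlinarith [sq_nonneg C2]
  · have h3 := h2 z (by rw [← hx]; exact hx1)
    rw [← hx] at h3
    have h4 : ‖Ph 2 lam z‖ ^ 2 ≤ C2 ^ 2 * Real.exp (-x) := by
      have := pow_le_pow_left₀ (norm_nonneg _) h3 2
      rw [mul_pow, ← Real.exp_nat_mul] at this
      refine this.trans (le_of_eq ?_)
      congr 2
      push_cast
      ring
    have h5 : x ^ 3 ≤ 6 * Real.exp x := by
      have := Real.pow_div_factorial_le_exp x hz.le 3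
      have e : ((Nat.factorial 3 : ℕ) : ℝ) = 6 := by norm_num [Nat.factorial]
      rw [e, div_le_iff₀ (by norm_num)] at this
      linarith
    have h6 : Real.exp (-x) * Real.exp x = 1 := by rw [← Real.exp_add]; simp
    have h7 : x ^ 2 * (1 + x) ≤ 2 * x ^ 3 := by nlinarith [sq_nonneg x]
    calc ‖Ph 2 lam z‖ ^ 2 * (x ^ 2 * (1 + x)) ≤ (C2 ^ 2 * Real.exp (-x)) * (2 * (6 * Real.exp x)) :=
          mul_le_mul h4 (by linarith) (by positivity) (by positivity)
      _ = 12 * C2 ^ 2 * (Real.exp (-x) * Real.exp x) := by ring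
      _ = 12 * C2 ^ 2 := by rw [h6, mul_one]
      _ ≤ _ := by nlinarith [sq_nonneg C1]

/-- the size of the sum over all characters -/
theorem size_all {N : ℕ} {ps lam : ℕ → ℂ} (hf : Frm 2 N ps lam) : ∃ C : ℝ, 0 < C ∧ ∀ (q : ℕ) [NeZero q] (z : ℂ),
    0 < z.re → ∑ χ : DirichletCharacter ℂ q, ‖Ph 2 (twl lam χ) z‖ ^ 2 ≤
      Nat.totient q * (C / (z.re ^ 2 * (1 + z.re))) := by
  obtain ⟨B, hcr⟩ := Pool.Agent.Y180.GL.cr_of hf
  obtain ⟨C, hC, h⟩ := size hf
  refine ⟨C, hC, fun q _ z hz => (orth 2 hcr hz).trans ?_⟩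
  have hq : (0 : ℝ) < q := by exact_mod_cast Nat.pos_of_ne_zero (NeZero.ne q)
  have h1 : ∑ b : ZMod q, ‖Ph 2 lam (z - 2 * Real.pi * I * (b.val : ℂ) / q)‖ ^ 2 ≤
      ∑ _b : ZMod q, C / (z.re ^ 2 * (1 + z.re)) := by
    refine Finset.sum_le_sum fun b _ => ?_
    have e : (z - 2 * Real.pi * I * (b.val : ℂ) / q).re = z.re := by
      have e1 : (2 * Real.pi * I * (b.val : ℂ) / q : ℂ) = ((2 * Real.pi * b.val / q : ℝ) : ℂ) * I := by
        push_cast
        ring
      rw [e1, Complex.sub_re, Complex.re_ofReal_mul, Complex.I_re, mul_zero, sub_zero]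
    have := h _ (by rw [e]; exact hz)
    rwa [e] at this
  rw [Finset.sum_const, Finset.card_univ, ZMod.card, nsmul_eq_mul] at h1
  calc (Nat.totient q : ℝ) / q * ∑ b : ZMod q, ‖Ph 2 lam (z - 2 * Real.pi * I * (b.val : ℂ) / q)‖ ^ 2 ≤
      (Nat.totient q : ℝ) / q * (q * (C / (z.re ^ 2 * (1 + z.re)))) := by gcongr
    _ = _ := by
        field_simp

end Pool.Agent.Y693.R4
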