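import Pool.Agent.Y180.GL.San

set_option autoImplicit false

/-!
# The mean square on the line and the ray
-/

namespace Pool.Agent.Y693.R4

open Complex Filter Topology MeasureTheory Set
open scoped ComplexConjugate
open Pool.Agent.Y671.GL
open Pool.Agent.Y180.GL (fr dir RR eq_all fr_cont fr_top fr_zero cr_of dir_pos dir_re wbd re_mul Cr ph_bd)

/-- lower bound for the gamma factor -/
lemma gam_ge {t : ℝ} (ht : 0 ≤ t) :
    (1 + t) / 2 * Real.exp (-(Real.pi * t)) ≤ ‖Complex.Gamma (1 + t * I)‖ ^ 2 := by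
  have hpi := Real.pi_pos
  rcases ht.eq_or_lt with rfl | ht
  · simp
    norm_num
  have hz : (t * I : ℂ) ≠ 0 := mul_ne_zero (by exact_mod_cast ht.ne') I_ne_zero
  have h1 : Complex.Gamma (1 + t * I) = (t * I) * Complex.Gamma (t * I) := by
    rw [add_comm, Complex.Gamma_add_one _ hz]
  have h2 : conj (Complex.Gamma (1 + t * I)) = Complex.Gamma (1 - t * I) := by
    rw [← Complex.Gamma_conj]
    congr 1
    simp [sub_eq_add_neg]
  have h3 : Complex.Gamma (t * I) * Complex.Gamma (1 - t * I) = Real.pi / Complex.sin (Real.pi * (t * I)) :=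
    Complex.Gamma_mul_Gamma_one_sub _
  have h4 : Complex.sin (Real.pi * (t * I)) = ((Real.sinh (Real.pi * t) : ℝ) : ℂ) * I := by
    rw [← mul_assoc, Complex.sin_mul_I]
    push_cast
    ring
  have hx : 0 < Real.pi * t := by positivity
  have hs : 0 < Real.sinh (Real.pi * t) := Real.sinh_pos_iff.2 hx
  have h5 : ((‖Complex.Gamma (1 + t * I)‖ ^ 2 : ℝ) : ℂ) = ((Real.pi * t / Real.sinh (Real.pi * t) : ℝ) : ℂ) := by
    rw [← Complex.normSq_eq_norm_sq, ← Complex.mul_conj, h2]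
    nth_rewrite 1 [h1]
    rw [mul_assoc, h3, h4]
    have : ((Real.sinh (Real.pi * t) : ℝ) : ℂ) ≠ 0 := by exact_mod_cast hs.ne'
    push_cast
    push_cast at this
    field_simp
  have h6 : ‖Complex.Gamma (1 + t * I)‖ ^ 2 = Real.pi * t / Real.sinh (Real.pi * t) := by exact_mod_cast h5
  rw [h6]
  obtain ⟨x, hxd⟩ : ∃ x : ℝ, x = Real.pi * t := ⟨_, rfl⟩
  rw [← hxd] at hs hx ⊢
  have hE : 0 < Real.exp (-x) := Real.exp_pos _
  have hsinh : Real.sinh x = (Real.exp x - Real.exp (-x)) / 2 := Real.sinh_eq x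
  have hEE : Real.exp (-x) * Real.exp x = 1 := by rw [← Real.exp_add]; simp
  have h7 : Real.exp (-x) * Real.sinh x ≤ 1 / 2 := by
    rw [hsinh]
    nlinarith [mul_pos hE hE]
  have h8 : Real.exp (-x) * Real.sinh x ≤ x := by
    have h9 : 1 - 2 * x ≤ Real.exp (-x) * Real.exp (-x) := by
      rw [← Real.exp_add]
      have := Real.add_one_le_exp (-x + -x)
      linarith
    rw [hsinh]
    nlinarith
  rw [le_div_iff₀ hs]
  have ht2 : t ≤ x := by
    rw [hxd]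
    have := Real.pi_gt_three
    nlinarith
  calc (1 + t) / 2 * Real.exp (-x) * Real.sinh x = (Real.exp (-x) * Real.sinh x) / 2 +
      t * (Real.exp (-x) * Real.sinh x) / 2 := by ring
    _ ≤ x / 2 + t * (1 / 2) / 2 := by gcongr
    _ ≤ x := by linarith

/-- Plancherel on the ray -/
theorem ray1 {N : ℕ} {ps lam : ℕ → ℂ} {F : ℂ → ℂ} (hf : Frm 2 N ps lam) (hF : IsL lam F) {δ B : ℝ}
    (hδ : 0 < δ) (hδ2 : δ < Real.pi / 2) (hB : 0 ≤ B) :
    ∫ t in (0 : ℝ)..B, (1 + t) * Real.exp (-(2 * t * δ)) * ‖F (1 / 2 + t * I)‖ ^ 2 ≤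
      4 * Real.pi * ∫ x in Ioi (0 : ℝ), ‖fr 2 lam (dir (Real.pi / 2 - δ)) x‖ ^ 2 * x := by
  have hpi := Real.pi_pos
  set φ : ℝ := Real.pi / 2 - δ with hφ
  have hφ0 : 0 < φ := by rw [hφ]; linarith
  have hφ1 : φ < Real.pi / 2 := by rw [hφ]; linarith
  have hd : 0 < (dir φ).re := dir_pos hφ0 hφ1
  obtain ⟨B0, hcr⟩ := cr_of hf
  have hc1 := fr_cont 2 hcr hd
  obtain ⟨Ca, hCa, hba⟩ := wbd hc1 (half_pos hd) (fr_top 2 hcr hd) (fr_zero hf hd 0) (a := 1 / 2) (by norm_num)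
  obtain ⟨Cb, hCb, hbb⟩ := wbd hc1 (half_pos hd) (fr_top 2 hcr hd) (fr_zero hf hd 0) (a := 3 / 2) (by norm_num)
  obtain ⟨G, hG⟩ : ∃ G : ℝ → ℂ, G = fun x => fr 2 lam (dir φ) x * ((x ^ (1 / 2 : ℝ) : ℝ) : ℂ) := ⟨_, rfl⟩
  have hGn : ∀ x : ℝ, 0 < x → ‖G x‖ = ‖fr 2 lam (dir φ) x‖ * x ^ (1 / 2 : ℝ) := by
    intro x hx
    rw [hG]
    simp only
    rw [norm_mul, Complex.norm_real, Real.norm_of_nonneg (by positivity)]
  have hGc : ContinuousOn G (Ioi 0) := by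
    rw [hG]
    refine hc1.mul ?_
    refine Complex.continuous_ofReal.comp_continuousOn ?_
    intro x hx
    exact (Real.continuousAt_rpow_const x _ (Or.inl (ne_of_gt hx))).continuousWithinAt
  have hG1 : ∀ x : ℝ, 0 < x → ‖G x‖ ≤ Ca + Cb := by
    intro x hx
    rw [hGn x hx]
    linarith [hba x hx]
  have hG2 : ∀ x : ℝ, 0 < x → ‖G x‖ ≤ (Ca + Cb) / x := by
    intro x hx
    rw [hGn x hx, le_div_iff₀ hx]
    have := hbb x hx
    have e : (3 / 2 : ℝ) = 1 / 2 + 1 := by norm_num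
    rw [e, Real.rpow_add hx, Real.rpow_one, ← mul_assoc] at this
    linarith
  have hplan := Pool.Agent.W352.SD.splan G (Ca + Cb) (1 / 2) 0 B hGc (by norm_num) (by norm_num) hG1 hG2 hB
  have hmel : ∀ t : ℝ, ∫ x in Ioi (0 : ℝ), G x * (x : ℂ) ^ (((1 / 2 : ℝ) : ℂ) + t * I - 1) =
      RR 2 F φ (1 + t * I) := by
    intro t
    have h1 := eq_all hf hF hφ0 hφ1 (w := 1 + t * I) (by simp)
    rw [← h1]
    unfold mellin
    refine setIntegral_congr_fun measurableSet_Ioi fun x hx => ?_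
    have hx0 : (0 : ℝ) < x := hx
    have hxc : (x : ℂ) ≠ 0 := by exact_mod_cast hx0.ne'
    simp only [hG, smul_eq_mul]
    rw [mul_assoc, mul_comm]
    congr 1
    rw [Complex.ofReal_cpow hx0.le, ← Complex.cpow_add _ _ hxc]
    congr 1
    push_cast
    ring
  simp_rw [hmel] at hplan
  have hrhs : ∫ x in Ioi (0 : ℝ), ‖G x‖ ^ 2 * x ^ (2 * (1 / 2 : ℝ) - 1) =
      ∫ x in Ioi (0 : ℝ), ‖fr 2 lam (dir φ) x‖ ^ 2 * x := by
    refine setIntegral_congr_fun measurableSet_Ioi fun x hx => ?_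
    have hx0 : (0 : ℝ) < x := hx
    have e1 : (2 * (1 / 2 : ℝ) - 1) = 0 := by norm_num
    have e2 : (x ^ (1 / 2 : ℝ)) ^ 2 = x := by
      rw [← Real.sqrt_eq_rpow, Real.sq_sqrt hx0.le]
    show ‖G x‖ ^ 2 * x ^ (2 * (1 / 2 : ℝ) - 1) = _
    rw [hGn x hx0, mul_pow, e1, Real.rpow_zero, mul_one, e2]
  rw [hrhs] at hplan
  have hRn : ∀ t : ℝ, 0 ≤ t → (1 + t) / 2 * Real.exp (-(2 * t * δ)) * ‖F (1 / 2 + t * I)‖ ^ 2 ≤
      ‖RR 2 F φ (1 + t * I)‖ ^ 2 := by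
    intro t ht
    unfold RR
    have e1 : (1 + t * I : ℂ) - ((((2 : ℕ) : ℝ) - 1) / 2 : ℝ) = 1 / 2 + t * I := by
      push_cast
      ring
    rw [e1, norm_mul, norm_mul, mul_pow, mul_pow]
    refine mul_le_mul_of_nonneg_right ?_ (by positivity)
    have e2 : ‖cexp (-(I * (φ : ℂ)) * (1 + t * I))‖ ^ 2 = Real.exp (2 * φ * t) := by
      rw [Complex.norm_exp, ← Real.exp_nat_mul]
      congr 1
      simp
      ring
    rw [e2]
    have h1 := gam_ge ht
    calc (1 + t) / 2 * Real.exp (-(2 * t * δ)) = Real.exp (2 * φ * t) * ((1 + t) / 2 * Real.exp (-(Real.pi * t))) := by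
          rw [mul_left_comm, ← Real.exp_add]
          congr 2
          rw [hφ]
          ring
      _ ≤ _ := mul_le_mul_of_nonneg_left h1 (Real.exp_pos _).le
  have hFc : Continuous (fun t : ℝ => ‖F (1 / 2 + t * I)‖ ^ 2) := by
    have h1 : Continuous (fun t : ℝ => (1 / 2 : ℂ) + t * I) := by fun_prop
    exact (hF.diff.continuous.comp h1).norm.pow 2
  have hRc : Continuous (fun t : ℝ => ‖RR 2 F φ (1 + t * I)‖ ^ 2) := by
    refine Continuous.pow (Continuous.norm ?_) 2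
    rw [continuous_iff_continuousAt]
    intro t
    have h1 : DifferentiableAt ℂ (RR 2 F φ) (1 + t * I) := Pool.Agent.Y180.GL.RR_diff 2 hF φ (by simp)
    exact ContinuousAt.comp (f := fun t : ℝ => (1 : ℂ) + t * I) (g := RR 2 F φ) h1.continuousAt
      (by fun_prop)
  have hmono : ∫ t in (0 : ℝ)..B, (1 + t) / 2 * Real.exp (-(2 * t * δ)) * ‖F (1 / 2 + t * I)‖ ^ 2 ≤
      ∫ t in (0 : ℝ)..B, ‖RR 2 F φ (1 + t * I)‖ ^ 2 := by
    refine intervalIntegral.integral_mono_on hB ?_ (hRc.intervalIntegrable _ _) fun t ht => hRn t ht.1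
    refine Continuous.intervalIntegrable ?_ _ _
    exact (by fun_prop : Continuous fun t : ℝ => (1 + t) / 2 * Real.exp (-(2 * t * δ))).mul hFc
  have h9 : ∫ t in (0 : ℝ)..B, (1 + t) * Real.exp (-(2 * t * δ)) * ‖F (1 / 2 + t * I)‖ ^ 2 =
      2 * ∫ t in (0 : ℝ)..B, (1 + t) / 2 * Real.exp (-(2 * t * δ)) * ‖F (1 / 2 + t * I)‖ ^ 2 := by
    rw [← intervalIntegral.integral_const_mul]
    refine intervalIntegral.integral_congr fun t _ => ?_
    show _ = 2 * _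
    ring
  rw [h9]
  have h10 := hmono.trans hplan
  linarith

/-- conjugation -/
lemma ph_conj (k : ℕ) (lam : ℕ → ℂ) (z : ℂ) : Ph k (fun n => conj (lam n)) z = conj (Ph k lam (conj z)) := by
  unfold Ph
  rw [Complex.conj_tsum]
  refine tsum_congr fun n => ?_
  unfold aa
  rw [map_mul, map_mul, Complex.conj_ofReal, ← Complex.exp_conj]
  simp

lemma dir_norm (φ : ℝ) : ‖dir φ‖ = 1 := by
  unfold dir
  rw [mul_comm]
  exact Complex.norm_exp_ofReal_mul_I φ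

/-- the functional equation on the ray -/
theorem fr_fricke {N : ℕ} {ps lam : ℕ → ℂ} (hf : Frm 2 N ps lam) {φ : ℝ} (hd : 0 < (dir φ).re)
    {x0 x : ℝ} (hx0 : 0 < x0) (hN : x0 ^ 2 * N = 4 * Real.pi ^ 2) (hx : 0 < x) :
    ‖fr 2 lam (dir φ) x‖ = (x0 / x) ^ 2 * ‖fr 2 lam (dir φ) (x0 ^ 2 / x)‖ := by
  have hpi := Real.pi_pos
  have hN0 : (0 : ℝ) < N := by exact_mod_cast hf.N_pos
  obtain ⟨ε, hε, hfr⟩ := hf.fricke
  have hdn : dir φ * conj (dir φ) = 1 := by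
    rw [Complex.mul_conj, Complex.normSq_eq_norm_sq, dir_norm]
    norm_num
  have hd0 : conj (dir φ) ≠ 0 := right_ne_zero_of_mul_eq_one hdn
  have hyr : 0 < x0 ^ 2 / x := by positivity
  have h1 := hfr (((x0 ^ 2 / x : ℝ) : ℂ) * conj (dir φ)) (by
    rw [re_mul, Complex.conj_re]
    exact mul_pos hyr hd)
  have hxc : (x : ℂ) ≠ 0 := by exact_mod_cast hx.ne'
  have hx0c : (x0 : ℂ) ≠ 0 := by exact_mod_cast hx0.ne'
  have hNc : ((x0 : ℂ) ^ 2 * N) = 4 * Real.pi ^ 2 := by exact_mod_cast congrArg (fun r : ℝ => (r : ℂ)) hN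
  have hNc0 : (N : ℂ) ≠ 0 := by exact_mod_cast hN0.ne'
  have e1 : (4 * (Real.pi : ℂ) ^ 2 / (N * (((x0 ^ 2 / x : ℝ) : ℂ) * conj (dir φ)))) = x * dir φ := by
    rw [← hNc]
    push_cast
    have hne : (N : ℂ) * ((x0 : ℂ) ^ 2 / x * conj (dir φ)) ≠ 0 :=
      mul_ne_zero hNc0 (mul_ne_zero (div_ne_zero (pow_ne_zero 2 hx0c) hxc) hd0)
    rw [div_eq_iff hne]
    have e2 : (x : ℂ) * dir φ * (N * ((x0 : ℂ) ^ 2 / x * conj (dir φ))) =
        N * (x * ((x0 : ℂ) ^ 2 / x)) * (dir φ * conj (dir φ)) := by ring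
    rw [e2, hdn, mul_div_cancel₀ _ hxc]
    ring
  have e3 : conj (((x0 ^ 2 / x : ℝ) : ℂ) * conj (dir φ)) = ((x0 ^ 2 / x : ℝ) : ℂ) * dir φ := by
    rw [map_mul, Complex.conj_ofReal, Complex.conj_conj]
  have e4 : x0 * Real.sqrt N = 2 * Real.pi := by
    have h2 : Real.sqrt (x0 ^ 2 * N) = Real.sqrt ((2 * Real.pi) ^ 2) := by
      rw [hN]
      congr 1
      ring
    rwa [Real.sqrt_mul (by positivity), Real.sqrt_sq hx0.le, Real.sqrt_sq (by positivity)] at h2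
  have e5 : ‖((Real.sqrt N : ℝ) : ℂ) * (((x0 ^ 2 / x : ℝ) : ℂ) * conj (dir φ)) / (2 * Real.pi)‖ = x0 / x := by
    have h3 : ‖(2 * (Real.pi : ℂ))‖ = 2 * Real.pi := by
      rw [norm_mul, Complex.norm_real, Real.norm_of_nonneg hpi.le]
      norm_num
    rw [norm_div, norm_mul, norm_mul, Complex.norm_real, Complex.norm_real, Complex.norm_conj, dir_norm, h3,
      Real.norm_of_nonneg (Real.sqrt_nonneg _), Real.norm_of_nonneg hyr.le, ← e4]
    have : 0 < Real.sqrt N := Real.sqrt_pos.2 hN0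
    field_simp
  unfold fr
  rw [e1, ph_conj, e3] at h1
  rw [h1, norm_mul, norm_mul, norm_pow, hε, one_mul, e5, Complex.norm_conj]

end Pool.Agent.Y693.R4
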