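import Pool.Agent.Y693.R4.Orth
import Pool.Agent.Y693.R4.Dya

set_option autoImplicit false

/-!
# The second moment over the characters modulo `q`
-/

namespace Pool.Agent.Y693.R4

open Complex Filter Topology MeasureTheory Set
open scoped ComplexConjugate
open Pool.Agent.Y671.GL
open Pool.Agent.Y180.GL (fr dir fr_cont cr_of dir_pos dir_re re_mul Cr)

/-- the majorant -/
noncomputable def hm (x0 s x : ℝ) : ℝ := if x ≤ x0 then 1 / (x + x0 ^ 2 * s) else 1 / (x * (1 + x * s))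

lemma hm_top {x0 s : ℝ} (hx0 : 0 < x0) (hs : 0 < s) :
    IntegrableOn (fun x => 1 / (x * (1 + x * s))) (Ioi x0) ∧
      ∫ x in Ioi x0, 1 / (x * (1 + x * s)) = Real.log (1 + 1 / (x0 * s)) := by
  obtain ⟨g, hg⟩ : ∃ g : ℝ → ℝ, g = fun x => -Real.log (1 + 1 / (x * s)) := ⟨_, rfl⟩
  have hder : ∀ x : ℝ, 0 < x → HasDerivAt g (1 / (x * (1 + x * s))) x := by
    intro x hx
    have h1 : HasDerivAt (fun x : ℝ => x * s) s x := by
      simpa using (hasDerivAt_id x).mul_const s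
    have h2 : HasDerivAt (fun x : ℝ => 1 + 1 / (x * s)) (-s / (x * s) ^ 2) x := by
      have := (h1.inv (by positivity)).const_add 1
      simpa [one_div] using this
    have h3 := (h2.log (by positivity)).neg
    rw [hg]
    refine h3.congr_deriv ?_
    have hxs : 0 < x * s := by positivity
    field_simp
    ring
  have hcont : ContinuousWithinAt g (Ici x0) x0 := (hder x0 hx0).continuousAt.continuousWithinAt
  have hpos : ∀ x ∈ Ioi x0, 0 ≤ 1 / (x * (1 + x * s)) := by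
    intro x hx
    have : 0 < x := hx0.trans hx
    positivity
  have hlim : Tendsto g atTop (𝓝 0) := by
    have h1 : Tendsto (fun x : ℝ => 1 + 1 / (x * s)) atTop (𝓝 (1 + 0)) := by
      refine tendsto_const_nhds.add ?_
      have h2 : Tendsto (fun x : ℝ => x * s) atTop atTop := tendsto_id.atTop_mul_const hs
      have := tendsto_inv_atTop_zero.comp h2
      refine this.congr fun x => ?_
      simp [one_div]
    rw [add_zero] at h1
    have h3 := (Real.continuousAt_log (x := (1 : ℝ)) one_ne_zero).tendsto.comp h1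
    rw [Real.log_one] at h3
    have h4 := h3.neg
    rw [neg_zero] at h4
    rw [hg]
    exact h4
  refine ⟨integrableOn_Ioi_deriv_of_nonneg hcont (fun x hx => hder x (hx0.trans hx)) hpos hlim, ?_⟩
  rw [integral_Ioi_of_hasDerivAt_of_nonneg hcont (fun x hx => hder x (hx0.trans hx)) hpos hlim, hg]
  simp

lemma hm_bot {x0 s : ℝ} (hx0 : 0 < x0) (hs : 0 < s) :
    IntegrableOn (fun x => 1 / (x + x0 ^ 2 * s)) (Ioc 0 x0) ∧
      ∫ x in Ioc 0 x0, 1 / (x + x0 ^ 2 * s) = Real.log (1 + 1 / (x0 * s)) := by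
  have hc : 0 < x0 ^ 2 * s := by positivity
  have hcont : ContinuousOn (fun x : ℝ => 1 / (x + x0 ^ 2 * s)) (Icc 0 x0) := by
    refine ContinuousOn.div continuousOn_const (by fun_prop) fun x hx => ?_
    have : 0 ≤ x := hx.1
    positivity
  refine ⟨(hcont.integrableOn_Icc).mono_set Ioc_subset_Icc_self, ?_⟩
  rw [← intervalIntegral.integral_of_le hx0.le]
  have h1 := intervalIntegral.integral_comp_add_right (a := 0) (b := x0) (fun x : ℝ => 1 / x) (x0 ^ 2 * s)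
  rw [h1, zero_add, integral_one_div_of_pos hc (by positivity)]
  congr 1
  field_simp
  ring

lemma hm_int {x0 s : ℝ} (hx0 : 0 < x0) (hs : 0 < s) :
    IntegrableOn (hm x0 s) (Ioi 0) ∧ ∫ x in Ioi 0, hm x0 s x = 2 * Real.log (1 + 1 / (x0 * s)) := by
  obtain ⟨a1, a2⟩ := hm_top hx0 hs
  obtain ⟨b1, b2⟩ := hm_bot hx0 hs
  have e1 : EqOn (fun x => 1 / (x * (1 + x * s))) (hm x0 s) (Ioi x0) := by
    intro x hx
    unfold hm
    rw [if_neg (not_le.2 hx)]
  have e2 : EqOn (fun x => 1 / (x + x0 ^ 2 * s)) (hm x0 s) (Ioc 0 x0) := by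
    intro x hx
    unfold hm
    rw [if_pos hx.2]
  have c1 : IntegrableOn (hm x0 s) (Ioi x0) := a1.congr_fun e1 measurableSet_Ioi
  have c2 : IntegrableOn (hm x0 s) (Ioc 0 x0) := b1.congr_fun e2 measurableSet_Ioc
  rw [setIntegral_congr_fun measurableSet_Ioi e1] at a2
  rw [setIntegral_congr_fun measurableSet_Ioc e2] at b2
  have hU : Ioc 0 x0 ∪ Ioi x0 = Ioi 0 := Ioc_union_Ioi_eq_Ioi hx0.le
  refine ⟨hU ▸ c2.union c1, ?_⟩
  rw [← hU, setIntegral_union (Ioc_disjoint_Ioi le_rfl) measurableSet_Ioi c2 c1, a2, b2]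
  ring

/-- the integral over the ray, summed over characters -/
theorem ray_sum {N : ℕ} {ps lam : ℕ → ℂ} (hf : Frm 2 N ps lam) : ∃ C : ℝ, 0 < C ∧
    ∀ (q : ℕ) [NeZero q] (S : Finset (DirichletCharacter ℂ q)),
    (∀ χ ∈ S, ∃ ps' : ℕ → ℂ, Frm 2 (N * q ^ 2) ps' (twl lam χ)) → ∀ δ : ℝ, 0 < δ → δ ≤ 1 →
    ∑ χ ∈ S, ∫ x in Ioi (0 : ℝ), ‖fr 2 (twl lam χ) (dir (Real.pi / 2 - δ)) x‖ ^ 2 * x ≤
      C * Nat.totient q / δ ^ 2 * Real.log (3 * q / δ) := by
  classical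
  obtain ⟨C, hC, hsz⟩ := size_all hf
  have hN0 : (0 : ℝ) < N := by exact_mod_cast hf.N_pos
  have hN1 : (1 : ℝ) ≤ N := by exact_mod_cast hf.N_pos
  have hlN : 0 ≤ Real.log (1 + N) := Real.log_nonneg (by linarith)
  refine ⟨8 * C * (1 + Real.log (1 + N)), by positivity, ?_⟩
  intro q _ S hS δ hδ hδ1
  have hpi := Real.pi_pos
  have hpi3 := Real.pi_gt_three
  have hpi4 := Real.pi_le_four
  have hq0 : (0 : ℝ) < q := by exact_mod_cast Nat.pos_of_ne_zero (NeZero.ne q)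
  have hq1 : (1 : ℝ) ≤ q := by exact_mod_cast Nat.one_le_iff_ne_zero.2 (NeZero.ne q)
  set φ : ℝ := Real.pi / 2 - δ with hφ
  have hφ0 : 0 < φ := by rw [hφ]; linarith
  have hφ1 : φ < Real.pi / 2 := by rw [hφ]; linarith
  have hd : 0 < (dir φ).re := dir_pos hφ0 hφ1
  obtain ⟨s, hs⟩ : ∃ s : ℝ, s = (dir φ).re := ⟨_, rfl⟩
  have hs0 : 0 < s := by rw [hs]; exact hd
  have hsδ : δ / 2 ≤ s := by
    rw [hs, dir_re, hφ, Real.cos_pi_div_two_sub]
    have h1 := Real.mul_le_sin hδ.le (by linarith)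
    refine le_trans ?_ h1
    have h2 : (1 / 2 : ℝ) ≤ 2 / Real.pi := by
      rw [div_le_div_iff₀ (by norm_num) hpi]
      linarith
    nlinarith
  have hsN : 0 < Real.sqrt N := Real.sqrt_pos.2 hN0
  obtain ⟨x0, hx0d⟩ : ∃ x0 : ℝ, x0 = 2 * Real.pi / (Real.sqrt N * q) := ⟨_, rfl⟩
  have hx0 : 0 < x0 := by rw [hx0d]; positivity
  have hNx : x0 ^ 2 * ((N * q ^ 2 : ℕ) : ℝ) = 4 * Real.pi ^ 2 := by
    rw [hx0d]
    push_cast
    have h1 : Real.sqrt N ^ 2 = N := Real.sq_sqrt hN0.le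
    rw [div_pow, mul_pow, mul_pow, h1]
    field_simp
    ring
  obtain ⟨K, hK⟩ : ∃ K : ℝ, K = Nat.totient q * C / s ^ 2 := ⟨_, rfl⟩
  have hK0 : 0 ≤ K := by rw [hK]; positivity
  -- pointwise
  have hpt : ∀ x : ℝ, 0 < x → ∑ χ ∈ S, ‖fr 2 (twl lam χ) (dir φ) x‖ ^ 2 * x ≤ K * hm x0 s x := by
    intro x hx
    have hbig : ∀ y : ℝ, 0 < y → ∑ χ ∈ S, ‖fr 2 (twl lam χ) (dir φ) y‖ ^ 2 ≤
        Nat.totient q * (C / ((y * s) ^ 2 * (1 + y * s))) := by
      intro y hy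
      have h1 := hsz q (y * dir φ) (by rw [re_mul]; exact mul_pos hy hd)
      rw [re_mul, ← hs] at h1
      refine le_trans ?_ h1
      exact Finset.sum_le_sum_of_subset_of_nonneg (Finset.subset_univ _) fun _ _ _ => by positivity
    rw [← Finset.sum_mul]
    unfold hm
    split_ifs with hxx
    · have h1 : ∑ χ ∈ S, ‖fr 2 (twl lam χ) (dir φ) x‖ ^ 2 =
          (x0 / x) ^ 4 * ∑ χ ∈ S, ‖fr 2 (twl lam χ) (dir φ) (x0 ^ 2 / x)‖ ^ 2 := by
        rw [Finset.mul_sum]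
        refine Finset.sum_congr rfl fun χ hχ => ?_
        obtain ⟨ps', hps⟩ := hS χ hχ
        rw [fr_fricke hps hd hx0 hNx hx, mul_pow]
        ring
      have h2 := hbig (x0 ^ 2 / x) (by positivity)
      rw [h1]
      calc (x0 / x) ^ 4 * (∑ χ ∈ S, ‖fr 2 (twl lam χ) (dir φ) (x0 ^ 2 / x)‖ ^ 2) * x ≤
          (x0 / x) ^ 4 * (Nat.totient q * (C / ((x0 ^ 2 / x * s) ^ 2 * (1 + x0 ^ 2 / x * s)))) * x := by gcongr
        _ = K * (1 / (x + x0 ^ 2 * s)) := by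
            rw [hK]
            field_simp
    · have h2 := hbig x hx
      calc (∑ χ ∈ S, ‖fr 2 (twl lam χ) (dir φ) x‖ ^ 2) * x ≤
          (Nat.totient q * (C / ((x * s) ^ 2 * (1 + x * s)))) * x := by gcongr
        _ = K * (1 / (x * (1 + x * s))) := by
            rw [hK]
            field_simp
  obtain ⟨i1, i2⟩ := hm_int hx0 hs0
  have hmeas : ∀ χ ∈ S, AEStronglyMeasurable (fun x : ℝ => ‖fr 2 (twl lam χ) (dir φ) x‖ ^ 2 * x)
      (volume.restrict (Ioi 0)) := by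
    intro χ hχ
    obtain ⟨ps', hps⟩ := hS χ hχ
    obtain ⟨B0, hcr⟩ := cr_of hps
    have hc := fr_cont 2 hcr hd
    exact (((hc.norm).pow 2).mul continuousOn_id).aestronglyMeasurable measurableSet_Ioi
  have hnn : ∀ χ ∈ S, ∀ x : ℝ, 0 < x → 0 ≤ ‖fr 2 (twl lam χ) (dir φ) x‖ ^ 2 * x := by
    intro χ _ x hx
    positivity
  have hint : ∀ χ ∈ S, IntegrableOn (fun x : ℝ => ‖fr 2 (twl lam χ) (dir φ) x‖ ^ 2 * x) (Ioi 0) := by
    intro χ hχ
    refine Integrable.mono' (i1.const_mul K) (hmeas χ hχ) ?_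
    refine (ae_restrict_iff' measurableSet_Ioi).2 (Eventually.of_forall fun x hx => ?_)
    have hx' : 0 < x := hx
    rw [Real.norm_of_nonneg (hnn χ hχ x hx')]
    refine le_trans ?_ (hpt x hx')
    exact Finset.single_le_sum (f := fun χ => ‖fr 2 (twl lam χ) (dir φ) x‖ ^ 2 * x)
      (fun χ hχ => hnn χ hχ x hx') hχ
  rw [← integral_finsetSum S hint]
  have h1 : ∫ x in Ioi (0 : ℝ), ∑ χ ∈ S, ‖fr 2 (twl lam χ) (dir φ) x‖ ^ 2 * x ≤
      ∫ x in Ioi (0 : ℝ), K * hm x0 s x := by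
    refine setIntegral_mono_on (integrable_finsetSum S hint) (i1.const_mul K) measurableSet_Ioi ?_
    intro x hx
    exact hpt x hx
  refine h1.trans ?_
  rw [integral_const_mul, i2]
  -- the logarithm
  have hL1 : 1 ≤ Real.log (3 * q / δ) := by
    rw [Real.le_log_iff_exp_le (by positivity)]
    have h2 := Real.exp_one_lt_d9
    rw [le_div_iff₀ hδ]
    nlinarith
  have hL2 : Real.log (1 + 1 / (x0 * s)) ≤ (1 + Real.log (1 + N)) * Real.log (3 * q / δ) := by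
    have h2 : 1 / (x0 * s) ≤ N * (q / δ) := by
      have h3 : Real.sqrt N ≤ N := by
        rw [Real.sqrt_le_left hN0.le]
        nlinarith
      have h4 : 1 / (x0 * s) = Real.sqrt N * q / (2 * Real.pi * s) := by
        rw [hx0d]
        field_simp
      rw [h4, div_le_iff₀ (by positivity)]
      have h5 : δ ≤ 2 * Real.pi * s := by nlinarith
      have h6 : 0 ≤ (N : ℝ) * (q / δ) := by positivity
      calc Real.sqrt N * q ≤ N * q := by gcongr
        _ = N * (q / δ) * δ := by field_simp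
        _ ≤ N * (q / δ) * (2 * Real.pi * s) := by gcongr
    have h3 : 1 + 1 / (x0 * s) ≤ (1 + N) * (3 * q / δ) := by
      have h4 : 1 ≤ q / δ := by
        rw [le_div_iff₀ hδ]; linarith
      have h5 : (1 + (N : ℝ)) * (3 * q / δ) = 3 * (q / δ) + 3 * (N * (q / δ)) := by ring
      rw [h5]
      have h6 : 0 ≤ (N : ℝ) * (q / δ) := by positivity
      linarith
    have h4 : Real.log (1 + 1 / (x0 * s)) ≤ Real.log (1 + N) + Real.log (3 * q / δ) := by
      rw [← Real.log_mul (by positivity) (by positivity)]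
      exact Real.log_le_log (by positivity) h3
    nlinarith
  have hs2 : 1 / s ^ 2 ≤ 4 / δ ^ 2 := by
    rw [div_le_div_iff₀ (by positivity) (by positivity)]
    nlinarith
  calc K * (2 * Real.log (1 + 1 / (x0 * s))) = 2 * (Nat.totient q * C) * (1 / s ^ 2) * Real.log (1 + 1 / (x0 * s)) := by
        rw [hK]; ring
    _ ≤ 2 * (Nat.totient q * C) * (4 / δ ^ 2) * ((1 + Real.log (1 + N)) * Real.log (3 * q / δ)) := by
        have : 0 ≤ Real.log (1 + 1 / (x0 * s)) := Real.log_nonneg (by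
          have : 0 < 1 / (x0 * s) := by positivity
          linarith)
        gcongr
    _ = _ := by ring

/-- the mean square on the line -/
theorem sm {N : ℕ} {ps lam : ℕ → ℂ} (hf : Frm 2 N ps lam) : ∃ C : ℝ, 0 < C ∧
    ∀ (q : ℕ) [NeZero q] (S : Finset (DirichletCharacter ℂ q)),
    (∀ χ ∈ S, ∃ ps' : ℕ → ℂ, Frm 2 (N * q ^ 2) ps' (twl lam χ)) →
    ∀ F : DirichletCharacter ℂ q → ℂ → ℂ, (∀ χ ∈ S, IsL (twl lam χ) (F χ)) → ∀ (j : ℕ) (B : ℝ), 0 ≤ B →
    ∫ t in (0 : ℝ)..B, (1 + t) * Real.exp (-(2 * t / 2 ^ j)) * ∑ χ ∈ S, ‖F χ (1 / 2 + t * I)‖ ^ 2 ≤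
      C * Nat.totient q * 4 ^ j * Real.log (3 * q * 2 ^ j) := by
  obtain ⟨C, hC, h⟩ := ray_sum hf
  have hpi := Real.pi_pos
  refine ⟨4 * Real.pi * C, by positivity, ?_⟩
  intro q _ S hS F hF j B hB
  have h2j : (0 : ℝ) < 2 ^ j := by positivity
  have hδ : (0 : ℝ) < 1 / 2 ^ j := by positivity
  have hδ1 : (1 : ℝ) / 2 ^ j ≤ 1 := by
    rw [div_le_one h2j]
    exact one_le_pow₀ (by norm_num)
  have hδ2 : (1 : ℝ) / 2 ^ j < Real.pi / 2 := by
    have := Real.pi_gt_three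
    linarith
  have h1 := h q S hS (1 / 2 ^ j) hδ hδ1
  have hFc : ∀ χ ∈ S, Continuous (fun t : ℝ => ‖F χ (1 / 2 + t * I)‖ ^ 2) := by
    intro χ hχ
    have h1 : Continuous (fun t : ℝ => (1 / 2 : ℂ) + t * I) := by fun_prop
    exact ((hF χ hχ).diff.continuous.comp h1).norm.pow 2
  have h2 : ∫ t in (0 : ℝ)..B, (1 + t) * Real.exp (-(2 * t / 2 ^ j)) * ∑ χ ∈ S, ‖F χ (1 / 2 + t * I)‖ ^ 2 =
      ∑ χ ∈ S, ∫ t in (0 : ℝ)..B, (1 + t) * Real.exp (-(2 * t * (1 / 2 ^ j))) * ‖F χ (1 / 2 + t * I)‖ ^ 2 := by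
    rw [← intervalIntegral.integral_finsetSum]
    · refine intervalIntegral.integral_congr fun t _ => ?_
      show _ = _
      rw [Finset.mul_sum]
      refine Finset.sum_congr rfl fun χ _ => ?_
      rw [mul_one_div]
    · intro χ hχ
      refine Continuous.intervalIntegrable ?_ _ _
      exact (by fun_prop : Continuous fun t : ℝ => (1 + t) * Real.exp (-(2 * t * (1 / 2 ^ j)))).mul (hFc χ hχ)
  rw [h2]
  have h3 : ∑ χ ∈ S, ∫ t in (0 : ℝ)..B, (1 + t) * Real.exp (-(2 * t * (1 / 2 ^ j))) * ‖F χ (1 / 2 + t * I)‖ ^ 2 ≤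
      ∑ χ ∈ S, 4 * Real.pi * ∫ x in Ioi (0 : ℝ), ‖fr 2 (twl lam χ) (dir (Real.pi / 2 - 1 / 2 ^ j)) x‖ ^ 2 * x := by
    refine Finset.sum_le_sum fun χ hχ => ?_
    obtain ⟨ps', hps⟩ := hS χ hχ
    exact ray1 hps (hF χ hχ) hδ hδ2 hB
  refine h3.trans ?_
  rw [← Finset.mul_sum]
  refine (mul_le_mul_of_nonneg_left h1 (by positivity)).trans (le_of_eq ?_)
  have e1 : (3 * q / (1 / 2 ^ j) : ℝ) = 3 * q * 2 ^ j := by field_simp
  have e2 : (4 : ℝ) ^ j = 2 ^ j * 2 ^ j := by rw [← mul_pow]; norm_num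
  rw [e1, e2]
  field_simp

end Pool.Agent.Y693.R4
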