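import Pool.Agent.Y693.R4.Fam
import Pool.Agent.H370R2.DirGood
import Pool.Agent.Y693.GL.Asm

set_option autoImplicit false

/-!
# Zeros of the completed L-function over an abelian field
-/

namespace Pool.Agent.Y693.R4

open UpperHalfPlane hiding I
open MatrixGroups CongruenceSubgroup
open Complex Filter Topology MeasureTheory Set
open scoped ComplexConjugate
open Pool.Agent.Y671.GL
open Pool.Agent.Y771.NF
open Pool.Agent.W169.HF (IsForm coef)
open Pool.Agent.W355.UN (facE prodE isNewf_of coprime_cond Pk)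
open Pool.Agent.Y693.GL (l2 frm2 exists_L ldata_tw)

/-- the order of a function symmetric with respect to the imaginary axis -/
theorem ord_symm {X : ℂ → ℂ} (hX : Differentiable ℂ X) (hs : ∀ z : ℂ, X (-(conj z)) = conj (X z)) (z : ℂ) :
    analyticOrderAt X (-(conj z)) = analyticOrderAt X z := by
  obtain ⟨g, hg⟩ : ∃ g : ℂ → ℂ, g = fun s => X (s - 1 / 2) := ⟨_, rfl⟩
  have h2 : (starRingEnd ℂ) 2 = 2 := Complex.conj_ofNat 2
  have hgd : Differentiable ℂ g := by
    rw [hg]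
    exact hX.comp (by fun_prop)
  have hgg : H370.DL.refl g = g := by
    funext s
    unfold H370.DL.refl
    rw [hg]
    show conj (X (1 - conj s - 1 / 2)) = X (s - 1 / 2)
    rw [← hs]
    congr 1
    simp [h2]
    ring
  have htr : ∀ s : ℂ, analyticOrderAt g s = analyticOrderAt X (s - 1 / 2) := by
    intro s
    rw [hg]
    have ha : AnalyticAt ℂ (fun s : ℂ => s - 1 / 2) s := by fun_prop
    have hd : deriv (fun s : ℂ => s - 1 / 2) s ≠ 0 := by
      rw [deriv_sub_const]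
      simp
    exact analyticOrderAt_comp_of_deriv_ne_zero (f := X) ha hd
  have h3 := H370.DL.order_refl (f := g) (s := z + 1 / 2) (hgd.analyticAt _)
  rw [hgg, htr, htr] at h3
  have e1 : z + 1 / 2 - 1 / 2 = z := by ring
  have e2 : 1 - conj (z + 1 / 2) - 1 / 2 = -(conj z) := by
    simp [h2]
    ring
  rw [e1, e2] at h3
  exact h3.symm

/-- the order of a product -/
theorem ord_prod {ι : Type*} [DecidableEq ι] (s : Finset ι) (X : ι → ℂ → ℂ) (z : ℂ)
    (hX : ∀ i ∈ s, AnalyticAt ℂ (X i) z) (hne : ∀ i ∈ s, analyticOrderAt (X i) z ≠ ⊤) :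
    AnalyticAt ℂ (fun w => ∏ i ∈ s, X i w) z ∧ analyticOrderAt (fun w => ∏ i ∈ s, X i w) z ≠ ⊤ ∧
      analyticOrderNatAt (fun w => ∏ i ∈ s, X i w) z = ∑ i ∈ s, analyticOrderNatAt (X i) z := by
  induction s using Finset.induction_on with
  | empty =>
    have h0 : analyticOrderAt (fun _ : ℂ => (1 : ℂ)) z = 0 := analyticAt_const.analyticOrderAt_eq_zero.2 one_ne_zero
    simp only [Finset.prod_empty, Finset.sum_empty]
    refine ⟨analyticAt_const, ?_, ?_⟩
    · rw [h0]; exact ENat.zero_ne_top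
    · unfold analyticOrderNatAt
      rw [h0]
      rfl
  | insert a s ha ih =>
    obtain ⟨h1, h2, h3⟩ := ih (fun i hi => hX i (Finset.mem_insert_of_mem hi))
      (fun i hi => hne i (Finset.mem_insert_of_mem hi))
    have h4 := hX a (Finset.mem_insert_self a s)
    have h5 := hne a (Finset.mem_insert_self a s)
    have e : (fun w => ∏ i ∈ insert a s, X i w) = X a * fun w => ∏ i ∈ s, X i w := by
      funext w
      rw [Finset.prod_insert ha]
      rfl
    rw [e, Finset.sum_insert ha, analyticOrderNatAt_mul h4 h1 h5 h2, h3]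
    refine ⟨h4.mul h1, ?_, rfl⟩
    rw [analyticOrderAt_mul h4 h1]
    exact WithTop.add_ne_top.2 ⟨h5, h2⟩

theorem ord_ne_top {X : ℂ → ℂ} (hX : Differentiable ℂ X) (hne : ∃ z, X z ≠ 0) (z : ℂ) :
    analyticOrderAt X z ≠ ⊤ := by
  obtain ⟨y, hy⟩ := hne
  have ha : AnalyticOnNhd ℂ X univ := fun z _ => hX.analyticAt z
  refine AnalyticOnNhd.analyticOrderAt_ne_top_of_isPreconnected ha isPreconnected_univ (mem_univ y) (mem_univ z) ?_
  rw [(hX.analyticAt y).analyticOrderAt_eq_zero.2 hy]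
  exact ENat.zero_ne_top

variable {N : ℕ} [NeZero N] {f : CuspForm (Gamma0 N : Subgroup (GL (Fin 2) ℝ)) 2} {w : ℝ}

/-- the completed L-function of one twist -/
theorem X_data (hf : IsForm N f w) {q : ℕ} [NeZero q] {χ : DirichletCharacter ℂ q} (hχ : χ.IsPrimitive)
    (hco : Nat.Coprime q N) : ∃ X : ℂ → ℂ, Differentiable ℂ X ∧ (∀ z : ℂ, X (-(conj z)) = conj (X z)) ∧
      (∀ s : ℂ, X s = 0 → |s.re| ≤ 1 / 2) ∧ (∃ z, X z ≠ 0) ∧
      (∃ v : ℂ, v ≠ 0 ∧ ∃ σ : ℝ, ∀ s : ℂ, σ ≤ s.re → X (s - 1) = v * facE f χ s) ∧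
      ∀ z : ℂ, 0 ≤ z.re → analyticOrderAt X z = analyticOrderAt (fun z => Lf f q χ (1 / 2 + z)) z := by
  obtain ⟨c, u, X, Z, hD, hL, hv⟩ := ldata_tw hf hχ hco
  have hfrm := frm2 hf hχ hco
  obtain ⟨h1, h2⟩ := Pool.Agent.Y693.GL.strip_of (by norm_num) hfrm hL hD
  have hZ : Z = Lf f q χ := isL_uniq hL (Lf_spec hf hχ hco).2
  subst hZ
  refine ⟨X, hD.diff, hD.symm, h1, h2, hv, ?_⟩
  have hcc : (c : ℂ) ≠ 0 := by exact_mod_cast hD.c_pos.ne'
  obtain ⟨U, hU⟩ : ∃ U : Set ℂ, U = {z : ℂ | -1 < z.re} := ⟨_, rfl⟩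
  have hUo : IsOpen U := by
    rw [hU]
    exact isOpen_lt continuous_const Complex.continuous_re
  have hUc : IsPreconnected U := by
    rw [hU]
    exact (convex_halfSpace_re_gt (-1)).isPreconnected
  have hG : ∀ z ∈ U, AnalyticAt ℂ (fun z => u * Hg c (((2 : ℕ) : ℝ) / 2) z) z := by
    have hd : DifferentiableOn ℂ (fun z => u * Hg c (((2 : ℕ) : ℝ) / 2) z) U := by
      intro z hz
      rw [hU] at hz
      have hz' : -1 < z.re := hz
      refine DifferentiableAt.differentiableWithinAt ?_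
      refine DifferentiableAt.const_mul ?_ u
      unfold Hg
      refine DifferentiableAt.mul ?_ ?_
      · exact DifferentiableAt.const_cpow differentiableAt_id (Or.inl hcc)
      · refine DifferentiableAt.comp z (f := fun z : ℂ => z + ((((2 : ℕ) : ℝ) / 2 : ℝ) : ℂ))
          (Complex.differentiableAt_Gamma _ ?_) (by fun_prop)
        intro m hm
        have := congrArg Complex.re hm
        simp at this
        have hm0 : (0 : ℝ) ≤ m := Nat.cast_nonneg m
        linarith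
    intro z hz
    exact hd.analyticAt (hUo.mem_nhds hz)
  have hGne : ∀ z ∈ U, u * Hg c (((2 : ℕ) : ℝ) / 2) z ≠ 0 := by
    intro z hz
    rw [hU] at hz
    have hz' : -1 < z.re := hz
    refine mul_ne_zero hD.u_ne ?_
    unfold Hg
    refine mul_ne_zero ?_ ?_
    · rw [Complex.cpow_def_of_ne_zero hcc]; exact Complex.exp_ne_zero _
    · refine Complex.Gamma_ne_zero_of_re_pos ?_
      simp
      linarith
  have hZd : Differentiable ℂ (fun z => Lf f q χ (1 / 2 + z)) := hL.diff.comp (by fun_prop)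
  have hA1 : AnalyticOnNhd ℂ X U := fun z _ => hD.diff.analyticAt z
  have hA2 : AnalyticOnNhd ℂ ((fun z => u * Hg c (((2 : ℕ) : ℝ) / 2) z) * fun z => Lf f q χ (1 / 2 + z)) U :=
    fun z hz => (hG z hz).mul (hZd.analyticAt z)
  have hev : X =ᶠ[𝓝 1] ((fun z => u * Hg c (((2 : ℕ) : ℝ) / 2) z) * fun z => Lf f q χ (1 / 2 + z)) := by
    have : ∀ᶠ z : ℂ in 𝓝 1, 1 / 2 < z.re := by
      refine (isOpen_lt continuous_const Complex.continuous_re).mem_nhds ?_
      show (1 / 2 : ℝ) < (1 : ℂ).re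
      norm_num
    filter_upwards [this] with z hz
    exact hD.eq z (Or.inr hz)
  have hEq := hA1.eqOn_of_preconnected_of_eventuallyEq hA2 hUc (z₀ := 1) (by
    rw [hU]
    show (-1 : ℝ) < (1 : ℂ).re
    norm_num) hev
  intro z hz
  have hzU : z ∈ U := by
    rw [hU]
    show -1 < z.re
    linarith
  have h3 : X =ᶠ[𝓝 z] ((fun z => u * Hg c (((2 : ℕ) : ℝ) / 2) z) * fun z => Lf f q χ (1 / 2 + z)) :=
    hEq.eventuallyEq_of_mem (hUo.mem_nhds hzU)
  rw [analyticOrderAt_congr h3, analyticOrderAt_mul (hG z hzU) (hZd.analyticAt z),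
    (hG z hzU).analyticOrderAt_eq_zero.2 (hGne z hzU), zero_add]

section
variable {M : ℕ} [NeZero M] (G : Subgroup (DirichletCharacter ℂ M)) [Fintype G]

/-- the orders of the zeros of the completed L-function over the field -/
theorem Lam_data (hf : IsForm N f w) (hco : Nat.Coprime M N) {Λ : ℂ → ℂ} (hd : Differentiable ℂ Λ)
    (hΛ : ∃ σ : ℝ, ∀ s : ℂ, σ ≤ s.re → Λ s = prodE G f s) :
    (∀ s : ℂ, Λ s = 0 → |s.re - 1| ≤ 1 / 2) ∧
    (∀ s : ℂ, analyticOrderNatAt Λ (2 - conj s) = analyticOrderNatAt Λ s) ∧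
    (∀ s : ℂ, Λ s = 0 ↔ Λ (2 - conj s) = 0) ∧
    ∀ s : ℂ, 1 ≤ s.re → analyticOrderNatAt Λ s = ∑ χ : G, analyticOrderNatAt (fun z =>
      Lf f (χ : DirichletCharacter ℂ M).conductor (χ : DirichletCharacter ℂ M).primitiveCharacter (1 / 2 + z)) (s - 1) := by
  classical
  have hone : ∀ χ : G, ∃ X : ℂ → ℂ, Differentiable ℂ X ∧ (∀ z : ℂ, X (-(conj z)) = conj (X z)) ∧
      (∀ s : ℂ, X s = 0 → |s.re| ≤ 1 / 2) ∧ (∃ z, X z ≠ 0) ∧
      (∃ v : ℂ, v ≠ 0 ∧ ∃ σ : ℝ, ∀ s : ℂ, σ ≤ s.re →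
        X (s - 1) = v * facE f (χ : DirichletCharacter ℂ M).primitiveCharacter s) ∧
      ∀ z : ℂ, 0 ≤ z.re → analyticOrderAt X z = analyticOrderAt (fun z =>
        Lf f (χ : DirichletCharacter ℂ M).conductor (χ : DirichletCharacter ℂ M).primitiveCharacter (1 / 2 + z)) z := by
    intro χ
    have : NeZero (χ : DirichletCharacter ℂ M).conductor := ⟨DirichletCharacter.conductor_ne_zero _⟩
    exact X_data hf (DirichletCharacter.primitiveCharacter_isPrimitive _) (coprime_cond hco _)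
  choose X h1 h2 h3 h4 h5 h6 using hone
  choose v hv σ hσ using h5
  obtain ⟨P, hP⟩ : ∃ P : ℂ → ℂ, P = fun z => ∏ χ : G, X χ z := ⟨_, rfl⟩
  have hPd : Differentiable ℂ P := by
    rw [hP]
    exact Differentiable.fun_finsetProd fun χ _ => h1 χ
  have hPs : ∀ z : ℂ, P (-(conj z)) = conj (P z) := by
    intro z
    rw [hP]
    show ∏ χ : G, X χ (-(conj z)) = conj (∏ χ : G, X χ z)
    rw [map_prod]
    exact Finset.prod_congr rfl fun χ _ => h2 χ z
  have hPz : ∀ s : ℂ, P s = 0 → |s.re| ≤ 1 / 2 := by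
    intro s hs
    rw [hP] at hs
    obtain ⟨χ, -, hχ⟩ := Finset.prod_eq_zero_iff.1 hs
    exact h3 χ s hχ
  obtain ⟨V, hV⟩ : ∃ V : ℂ, V = ∏ χ : G, v χ := ⟨_, rfl⟩
  have hV0 : V ≠ 0 := by
    rw [hV]
    exact Finset.prod_ne_zero_iff.2 fun χ _ => hv χ
  have hPΛ : ∀ z : ℂ, P z = V * Λ (1 + z) := by
    obtain ⟨σ', hσ'⟩ := hΛ
    have hd1 : Differentiable ℂ (fun s : ℂ => P (s - 1)) := hPd.comp (by fun_prop)
    have hd2 : Differentiable ℂ (fun s : ℂ => V * Λ s) := hd.const_mul V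
    have he := Pk.uniq (G := fun s => V * prodE G f s) hd2 hd1 ⟨σ', fun s hs => by
      show V * Λ s = V * prodE G f s
      rw [hσ' s hs]⟩ ⟨∑ χ : G, |σ χ|, fun s hs => by
        show P (s - 1) = V * prodE G f s
        rw [hP, hV]
        unfold prodE
        rw [← Finset.prod_mul_distrib]
        refine Finset.prod_congr rfl fun χ _ => hσ χ s ?_
        refine le_trans ?_ hs
        refine (le_abs_self _).trans ?_
        exact Finset.single_le_sum (f := fun χ : G => |σ χ|) (fun _ _ => abs_nonneg _) (Finset.mem_univ χ)⟩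
    intro z
    have h7 := congrFun he (1 + z)
    simpa using h7
  have hord : ∀ s : ℂ, analyticOrderNatAt Λ s = analyticOrderNatAt P (s - 1) := fun s =>
    (Pool.Agent.Y693.GL.ord_tr hV0 hd hPΛ s).symm
  have hzz : ∀ s : ℂ, Λ s = 0 ↔ P (s - 1) = 0 := by
    intro s
    rw [hPΛ]
    have e : (1 : ℂ) + (s - 1) = s := by ring
    rw [e]
    constructor
    · intro h
      rw [h, mul_zero]
    · intro h
      exact (mul_eq_zero.1 h).resolve_left hV0
  have e2 : ∀ s : ℂ, (2 : ℂ) - conj s - 1 = -(conj (s - 1)) := by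
    intro s
    rw [map_sub, map_one]
    ring
  refine ⟨?_, ?_, ?_, ?_⟩
  · intro s hs
    have := hPz _ ((hzz s).1 hs)
    simpa using this
  · intro s
    rw [hord, hord, e2]
    unfold analyticOrderNatAt
    rw [ord_symm hPd hPs]
  · intro s
    rw [hzz, hzz, e2, hPs]
    exact (map_eq_zero _).symm
  · intro s hs
    rw [hord, hP]
    have h7 := (ord_prod (Finset.univ : Finset G) X (s - 1) (fun χ _ => (h1 χ).analyticAt _)
      (fun χ _ => ord_ne_top (h1 χ) (h4 χ) _)).2.2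
    rw [h7]
    refine Finset.sum_congr rfl fun χ _ => ?_
    unfold analyticOrderNatAt
    rw [h6 χ (s - 1) (by simp; linarith)]

end

end Pool.Agent.Y693.R4
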